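import Mathlib
import Pool.Agent.H469R2.NK.KL

set_option autoImplicit false

/-! # Sums of `n^{iv}`: Kusmin-Landau, mean squares, separated sets -/

open Finset MeasureTheory

namespace Pool.Agent.Run7.h290.DS

/-- `n^{iv}` -/
noncomputable def nv (v : ℝ) (n : ℕ) : ℂ := Complex.exp (Complex.I * (v : ℂ) * (Real.log (n : ℝ) : ℂ))

lemma nv_norm (v : ℝ) (n : ℕ) : ‖nv v n‖ = 1 := by
  unfold nv
  rw [show Complex.I * (v : ℂ) * (Real.log (n : ℝ) : ℂ) = ((v * Real.log n : ℝ) : ℂ) * Complex.I by push_cast; ring]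
  exact Complex.norm_exp_ofReal_mul_I _

lemma nv_conj (v : ℝ) (n : ℕ) : (starRingEnd ℂ) (nv v n) = nv (-v) n := by
  unfold nv
  rw [← Complex.exp_conj, map_mul, map_mul, Complex.conj_I, Complex.conj_ofReal, Complex.conj_ofReal]
  congr 1
  push_cast
  ring

lemma nv_mul (v w : ℝ) (n : ℕ) : nv v n * nv w n = nv (v + w) n := by
  unfold nv
  rw [← Complex.exp_add]
  congr 1
  push_cast
  ring

lemma nv_abs (v : ℝ) (A : Finset ℕ) : ‖∑ n ∈ A, nv v n‖ = ‖∑ n ∈ A, nv |v| n‖ := by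
  rcases abs_cases v with ⟨h, _⟩ | ⟨h, _⟩
  · rw [h]
  · rw [h]
    have : ∑ n ∈ A, nv (-v) n = (starRingEnd ℂ) (∑ n ∈ A, nv v n) := by
      rw [map_sum]
      exact Finset.sum_congr rfl fun n _ => (nv_conj v n).symm
    rw [this, RCLike.norm_conj]

/-- Kusmin-Landau for `n^{iv}` -/
lemma kl {v : ℝ} (hv : 0 < v) (M N : ℕ) (hvM : v ≤ 2 * ((M : ℝ) + 1)) :
    ‖∑ n ∈ Ioc M N, nv v n‖ ≤ 8 * Real.pi * N / v := by
  have hpi := Real.pi_pos
  have hpi3 := Real.pi_gt_three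
  rcases Nat.lt_or_ge M N with hMN | hMN
  swap
  · rw [Finset.Ioc_eq_empty (by omega), Finset.sum_empty, norm_zero]
    positivity
  have hN : (1:ℝ) ≤ N := by exact_mod_cast (by omega : 1 ≤ N)
  have hMN' : (M:ℝ) + 1 ≤ N := by exact_mod_cast hMN
  have e1 : ∑ n ∈ Ioc M N, nv v n = ∑ j ∈ range (N - M), Pool.Agent.H469R2.NK.e (v * Real.log ((M:ℝ) + 1 + j) / (2 * Real.pi)) := by
    have : Ioc M N = (range (N - M)).image fun j => M + 1 + j := by
      ext n
      simp only [mem_Ioc, mem_image, mem_range]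
      constructor
      · intro h
        exact ⟨n - (M + 1), by omega, by omega⟩
      · rintro ⟨j, hj, rfl⟩
        omega
    rw [this, Finset.sum_image (by intro a _ b _ h; simp only at h; omega)]
    refine Finset.sum_congr rfl fun j _ => ?_
    unfold nv Pool.Agent.H469R2.NK.e
    congr 1
    push_cast
    field_simp
  rw [e1]
  have hθ : 0 < v / (4 * Real.pi * N) := by positivity
  have hlog1 : ∀ m : ℝ, 1 ≤ m → 1 / (m + 1) ≤ Real.log (m + 1) - Real.log m := by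
    intro m hm
    rw [← Real.log_div (by linarith) (by linarith)]
    have h := Real.one_sub_inv_le_log_of_pos (x := (m + 1) / m) (by positivity)
    refine le_trans (le_of_eq ?_) h
    field_simp
    ring
  have hlog2 : ∀ m : ℝ, 1 ≤ m → Real.log (m + 1) - Real.log m ≤ 1 / m := by
    intro m hm
    rw [← Real.log_div (by linarith) (by linarith)]
    have h := Real.log_le_sub_one_of_pos (x := (m + 1) / m) (by positivity)
    refine h.trans (le_of_eq ?_)
    field_simp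
    ring
  have hlog3 : ∀ m : ℝ, 1 ≤ m → Real.log (m + 2) - Real.log (m + 1) ≤ Real.log (m + 1) - Real.log m := by
    intro m hm
    rw [← Real.log_div (by linarith) (by linarith), ← Real.log_div (by linarith) (by linarith)]
    refine Real.log_le_log (by positivity) ?_
    rw [div_le_div_iff₀ (by linarith) (by linarith)]
    nlinarith
  have hk := Pool.Agent.H469R2.NK.kusmin_landau_anti (fun j => v * Real.log ((M:ℝ) + 1 + j) / (2 * Real.pi)) (N - M) hθ ?_ ?_ ?_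
  · refine hk.trans (le_of_eq ?_)
    field_simp
    ring
  · intro j hj
    have hj' : (M:ℝ) + 1 + j ≤ N := by exact_mod_cast (by omega : M + 1 + j ≤ N)
    have hm1 : (1:ℝ) ≤ (M:ℝ) + 1 + j := by
      have : (0:ℝ) ≤ M := Nat.cast_nonneg _
      have : (0:ℝ) ≤ j := Nat.cast_nonneg _
      linarith
    have h1 := hlog1 _ hm1
    have h2 : 1 / (2 * (N:ℝ)) ≤ 1 / ((M:ℝ) + 1 + j + 1) := by
      apply one_div_le_one_div_of_le (by linarith)
      linarith
    have e2 : v * Real.log ((M:ℝ) + 1 + ((j + 1 : ℕ) : ℝ)) / (2 * Real.pi) - v * Real.log ((M:ℝ) + 1 + j) / (2 * Real.pi) =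
        v / (2 * Real.pi) * (Real.log ((M:ℝ) + 1 + j + 1) - Real.log ((M:ℝ) + 1 + j)) := by
      push_cast
      rw [show (M:ℝ) + 1 + ((j:ℝ) + 1) = (M:ℝ) + 1 + j + 1 by ring]
      ring
    rw [e2]
    have h3 : v / (4 * Real.pi * N) = v / (2 * Real.pi) * (1 / (2 * (N:ℝ))) := by
      field_simp
      ring
    rw [h3]
    exact mul_le_mul_of_nonneg_left (h2.trans h1) (by positivity)
  · intro j hj
    have hj0 : (0:ℝ) ≤ j := Nat.cast_nonneg _
    have hM0 : (0:ℝ) ≤ M := Nat.cast_nonneg _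
    have hm1 : (1:ℝ) ≤ (M:ℝ) + 1 + j := by linarith
    have h1 := hlog2 _ hm1
    have e2 : v * Real.log ((M:ℝ) + 1 + ((j + 1 : ℕ) : ℝ)) / (2 * Real.pi) - v * Real.log ((M:ℝ) + 1 + j) / (2 * Real.pi) =
        v / (2 * Real.pi) * (Real.log ((M:ℝ) + 1 + j + 1) - Real.log ((M:ℝ) + 1 + j)) := by
      push_cast
      rw [show (M:ℝ) + 1 + ((j:ℝ) + 1) = (M:ℝ) + 1 + j + 1 by ring]
      ring
    rw [e2]
    have h2 : v / (2 * Real.pi) * (Real.log ((M:ℝ) + 1 + j + 1) - Real.log ((M:ℝ) + 1 + j)) ≤ 1 / 3 := by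
      calc _ ≤ v / (2 * Real.pi) * (1 / ((M:ℝ) + 1 + j)) := mul_le_mul_of_nonneg_left h1 (by positivity)
        _ = v / (2 * Real.pi * ((M:ℝ) + 1 + j)) := by field_simp
        _ ≤ 1 / 3 := by
          rw [div_le_div_iff₀ (by positivity) (by norm_num)]
          nlinarith [mul_nonneg hj0 (by linarith : (0:ℝ) ≤ Real.pi - 3)]
    have h3 : v / (4 * Real.pi * N) ≤ 1 / 6 := by
      rw [div_le_div_iff₀ (by positivity) (by norm_num)]
      nlinarith
    linarith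
  · intro j hj
    have hj0 : (0:ℝ) ≤ j := Nat.cast_nonneg _
    have hM0 : (0:ℝ) ≤ M := Nat.cast_nonneg _
    have hm1 : (1:ℝ) ≤ (M:ℝ) + 1 + j := by linarith
    have h1 := hlog3 _ hm1
    have e2 : v * Real.log ((M:ℝ) + 1 + ((j + 1 : ℕ) : ℝ)) / (2 * Real.pi) - v * Real.log ((M:ℝ) + 1 + j) / (2 * Real.pi) =
        v / (2 * Real.pi) * (Real.log ((M:ℝ) + 1 + j + 1) - Real.log ((M:ℝ) + 1 + j)) := by
      push_cast
      rw [show (M:ℝ) + 1 + ((j:ℝ) + 1) = (M:ℝ) + 1 + j + 1 by ring]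
      ring
    have e3 : v * Real.log ((M:ℝ) + 1 + ((j + 2 : ℕ) : ℝ)) / (2 * Real.pi) - v * Real.log ((M:ℝ) + 1 + ((j + 1 : ℕ) : ℝ)) / (2 * Real.pi) =
        v / (2 * Real.pi) * (Real.log ((M:ℝ) + 1 + j + 2) - Real.log ((M:ℝ) + 1 + j + 1)) := by
      push_cast
      rw [show (M:ℝ) + 1 + ((j:ℝ) + 1) = (M:ℝ) + 1 + j + 1 by ring, show (M:ℝ) + 1 + ((j:ℝ) + 2) = (M:ℝ) + 1 + j + 2 by ring]
      ring
    rw [e2, e3]
    exact mul_le_mul_of_nonneg_left h1 (by positivity)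

/-- the harmonic sum -/
lemma harm (m : ℕ) : ∑ k ∈ Icc 1 m, (1:ℝ) / k ≤ 1 + Real.log m := by
  have h := harmonic_le_one_add_log m
  have e : ((harmonic m : ℚ) : ℝ) = ∑ k ∈ Icc 1 m, (1:ℝ) / k := by
    rw [harmonic_eq_sum_Icc]
    push_cast
    exact Finset.sum_congr rfl fun k _ => (one_div _).symm
  rw [← e]
  exact h

/-- reciprocal distances in a `1`-separated set -/
lemma sep_sum (S : Finset ℝ) (hS : ∀ t ∈ S, ∀ u ∈ S, t ≠ u → 1 ≤ |t - u|) (t : ℝ) (ht : ∀ u ∈ S, 1 ≤ |t - u|) (N : ℕ)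
    (hN : ∀ u ∈ S, |t - u| ≤ N) : ∑ u ∈ S, 1 / |t - u| ≤ 4 * (1 + Real.log (N + 1)) := by
  classical
  -- the floors of `t - u`
  have hinj : Set.InjOn (fun u : ℝ => ⌊t - u⌋) S := by
    intro u hu w hw h
    by_contra hne
    have h1 := hS u hu w hw hne
    simp only at h
    have h2 := Int.floor_le (t - u)
    have h3 := Int.lt_floor_add_one (t - u)
    have h4 := Int.floor_le (t - w)
    have h5 := Int.lt_floor_add_one (t - w)
    rw [h] at h2 h3
    have : |u - w| < 1 := by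
      rw [abs_lt]
      constructor <;> linarith
    linarith
  have hterm : ∀ u ∈ S, 1 / |t - u| ≤ 2 / |((⌊t - u⌋ : ℤ) : ℝ)| := by
    intro u hu
    have h1 := ht u hu
    have h2 := Int.floor_le (t - u)
    have h3 := Int.lt_floor_add_one (t - u)
    have hne : ⌊t - u⌋ ≠ 0 := by
      intro h0
      rw [h0] at h2 h3
      push_cast at h2 h3
      rw [abs_of_nonneg h2] at h1
      linarith
    have hpos : 0 < |((⌊t - u⌋ : ℤ) : ℝ)| := by
      rw [abs_pos]
      exact_mod_cast hne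
    rw [div_le_div_iff₀ (by linarith) hpos, one_mul]
    rcases lt_or_ge (t - u) 0 with hneg | hnn
    · rw [abs_of_neg hneg] at h1 ⊢
      have : ((⌊t - u⌋ : ℤ) : ℝ) < 0 := by linarith
      rw [abs_of_neg this]
      linarith
    · rw [abs_of_nonneg hnn] at h1 ⊢
      have : (0:ℝ) ≤ ((⌊t - u⌋ : ℤ) : ℝ) := by exact_mod_cast Int.floor_nonneg.2 hnn
      rw [abs_of_nonneg this]
      linarith
  have himg : S.image (fun u : ℝ => ⌊t - u⌋) ⊆ ((Icc 1 (N + 1)).image fun k : ℕ => (k : ℤ)) ∪ ((Icc 1 (N + 1)).image fun k : ℕ => -(k : ℤ)) := by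
    intro k hk
    rw [mem_image] at hk
    obtain ⟨u, hu, rfl⟩ := hk
    have h1 := ht u hu
    have h1N := hN u hu
    have h2 := Int.floor_le (t - u)
    have h3 := Int.lt_floor_add_one (t - u)
    rw [mem_union, mem_image, mem_image]
    rcases lt_or_ge (t - u) 0 with hneg | hnn
    · right
      rw [abs_of_neg hneg] at h1 h1N
      have h4 : ((⌊t - u⌋ : ℤ) : ℝ) < 0 := by linarith
      have h5 : ⌊t - u⌋ < 0 := by exact_mod_cast h4
      have h6 : (-(N:ℝ) - 1) ≤ ((⌊t - u⌋ : ℤ) : ℝ) := by linarith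
      have h7 : -(N:ℤ) - 1 ≤ ⌊t - u⌋ := by exact_mod_cast h6
      refine ⟨(-⌊t - u⌋).toNat, ?_, ?_⟩
      · rw [mem_Icc]
        omega
      · omega
    · left
      rw [abs_of_nonneg hnn] at h1 h1N
      have h4 : (0:ℝ) < ((⌊t - u⌋ : ℤ) : ℝ) := by
        have : (1:ℤ) ≤ ⌊t - u⌋ := Int.le_floor.2 (by push_cast; exact h1)
        have : (1:ℝ) ≤ ((⌊t - u⌋ : ℤ) : ℝ) := by exact_mod_cast this
        linarith
      have h5 : 0 < ⌊t - u⌋ := by exact_mod_cast h4
      have h6 : ((⌊t - u⌋ : ℤ) : ℝ) ≤ N := by linarith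
      have h7 : ⌊t - u⌋ ≤ (N:ℤ) := by exact_mod_cast h6
      refine ⟨(⌊t - u⌋).toNat, ?_, ?_⟩
      · rw [mem_Icc]
        omega
      · omega
  calc ∑ u ∈ S, 1 / |t - u| ≤ ∑ u ∈ S, 2 / |((⌊t - u⌋ : ℤ) : ℝ)| := Finset.sum_le_sum hterm
    _ = ∑ k ∈ S.image (fun u : ℝ => ⌊t - u⌋), 2 / |(k : ℝ)| := by
        rw [Finset.sum_image hinj]
    _ ≤ ∑ k ∈ ((Icc 1 (N + 1)).image fun k : ℕ => (k : ℤ)) ∪ ((Icc 1 (N + 1)).image fun k : ℕ => -(k : ℤ)), 2 / |(k : ℝ)| :=
        Finset.sum_le_sum_of_subset_of_nonneg himg fun _ _ _ => by positivity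
    _ ≤ ∑ k ∈ ((Icc 1 (N + 1)).image fun k : ℕ => (k : ℤ)), 2 / |(k : ℝ)| +
        ∑ k ∈ ((Icc 1 (N + 1)).image fun k : ℕ => -(k : ℤ)), 2 / |(k : ℝ)| := by
        rw [← Finset.sum_union_inter]
        have : 0 ≤ ∑ k ∈ ((Icc 1 (N + 1)).image fun k : ℕ => (k : ℤ)) ∩ ((Icc 1 (N + 1)).image fun k : ℕ => -(k : ℤ)), 2 / |(k : ℝ)| :=
          Finset.sum_nonneg fun _ _ => by positivity
        linarith
    _ = 4 * ∑ k ∈ Icc 1 (N + 1), (1:ℝ) / k := by
        rw [Finset.sum_image (by intro a _ b _ h; simpa using h), Finset.sum_image (by intro a _ b _ h; simpa using h)]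
        rw [← Finset.sum_add_distrib, Finset.mul_sum]
        refine Finset.sum_congr rfl fun k _ => ?_
        push_cast
        rw [abs_neg, Nat.abs_cast]
        ring
    _ ≤ 4 * (1 + Real.log (N + 1)) := by
        have := harm (N + 1)
        push_cast at this
        linarith

end Pool.Agent.Run7.h290.DS
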