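import Pool.Agent.Run7.h290.DS.A
import Pool.Agent.Run7.h290.FT.A

set_option autoImplicit false

/-! # Mean squares over dilations -/

open Finset MeasureTheory

namespace Pool.Agent.Run7.h290.DS

/-- `∑_{n ≤ M} b_n n^{iv}` -/
noncomputable def F (b : ℕ → ℝ) (M : ℕ) (v : ℝ) : ℂ := ∑ n ∈ Icc 1 M, (b n : ℂ) * nv v n

lemma normsq (A : Finset ℕ) (b θ : ℕ → ℝ) : ‖∑ n ∈ A, (b n : ℂ) * Complex.exp (Complex.I * (θ n : ℂ))‖ ^ 2 =
    ∑ m ∈ A, ∑ n ∈ A, b m * b n * Real.cos (θ m - θ n) := by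
  have hre : (∑ n ∈ A, (b n : ℂ) * Complex.exp (Complex.I * (θ n : ℂ))).re = ∑ n ∈ A, b n * Real.cos (θ n) := by
    rw [Complex.re_sum]
    refine Finset.sum_congr rfl fun n _ => ?_
    rw [Complex.re_ofReal_mul, mul_comm Complex.I, Complex.exp_ofReal_mul_I_re]
  have him : (∑ n ∈ A, (b n : ℂ) * Complex.exp (Complex.I * (θ n : ℂ))).im = ∑ n ∈ A, b n * Real.sin (θ n) := by
    rw [Complex.im_sum]
    refine Finset.sum_congr rfl fun n _ => ?_
    rw [Complex.im_ofReal_mul, mul_comm Complex.I, Complex.exp_ofReal_mul_I_im]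
  rw [← Complex.normSq_eq_norm_sq, Complex.normSq_apply, hre, him, Finset.sum_mul_sum, Finset.sum_mul_sum, ← Finset.sum_add_distrib]
  refine Finset.sum_congr rfl fun m _ => ?_
  rw [← Finset.sum_add_distrib]
  refine Finset.sum_congr rfl fun n _ => ?_
  rw [Real.cos_sub]
  ring

lemma F_sq (b : ℕ → ℝ) (M : ℕ) (v : ℝ) : ‖F b M v‖ ^ 2 =
    ∑ m ∈ Icc 1 M, ∑ n ∈ Icc 1 M, b m * b n * Real.cos (v * (Real.log m - Real.log n)) := by
  have h := normsq (Icc 1 M) b (fun n => v * Real.log n)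
  unfold F nv
  simp_rw [← mul_sub] at h
  rw [← h]
  congr 2
  refine Finset.sum_congr rfl fun n _ => ?_
  push_cast
  congr 2
  ring

lemma int_cos {c : ℝ} (hc : c ≠ 0) : |∫ x in (1:ℝ)..2, Real.cos (x * c)| ≤ 2 / |c| := by
  have h : ∫ x in (1:ℝ)..2, Real.cos (x * c) = c⁻¹ * (Real.sin (2 * c) - Real.sin (1 * c)) := by
    rw [intervalIntegral.integral_comp_mul_right (fun y => Real.cos y) hc, integral_cos, smul_eq_mul]
  rw [h, abs_mul, abs_inv, inv_mul_eq_div]
  refine div_le_div_of_nonneg_right ?_ (abs_nonneg c)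
  have h1 := Real.abs_sin_le_one (2 * c)
  have h2 := Real.abs_sin_le_one (1 * c)
  calc |Real.sin (2 * c) - Real.sin (1 * c)| ≤ |Real.sin (2 * c)| + |Real.sin (1 * c)| := abs_sub _ _
    _ ≤ 2 := by linarith

lemma log_diff {m n M : ℕ} (hm : 1 ≤ m) (hn : 1 ≤ n) (hmM : m ≤ M) (hnM : n ≤ M) : |(m:ℝ) - n| / M ≤ |Real.log m - Real.log n| := by
  wlog h : n ≤ m generalizing m n
  · have := this hn hm hnM hmM (by omega)
    rwa [abs_sub_comm, abs_sub_comm (Real.log m)]
  have hm' : (1:ℝ) ≤ m := by exact_mod_cast hm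
  have hn' : (1:ℝ) ≤ n := by exact_mod_cast hn
  have hmM' : (m:ℝ) ≤ M := by exact_mod_cast hmM
  have hnm : (n:ℝ) ≤ m := by exact_mod_cast h
  have h1 : 0 ≤ Real.log m - Real.log n := sub_nonneg.2 (Real.log_le_log (by linarith) hnm)
  rw [abs_of_nonneg h1, abs_of_nonneg (by linarith), ← Real.log_div (by linarith) (by linarith)]
  have h2 := Real.one_sub_inv_le_log_of_pos (x := (m:ℝ) / n) (by positivity)
  refine le_trans ?_ h2
  rw [inv_div]
  have e : 1 - (n:ℝ) / m = ((m:ℝ) - n) / m := by field_simp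
  rw [e]
  exact div_le_div_of_nonneg_left (by linarith) (by linarith) hmM'

lemma row (M m : ℕ) : ∑ n ∈ (Icc 1 M).erase m, 1 / |(m:ℝ) - n| ≤ 4 * (1 + Real.log (M + m + 1)) := by
  classical
  have h := sep_sum (((Icc 1 M).erase m).image fun n : ℕ => (n : ℝ)) ?_ (m : ℝ) ?_ (M + m) ?_
  · rw [Finset.sum_image (by intro a _ b _ h; simpa using h)] at h
    push_cast at h
    exact h
  · intro t ht u hu htu
    rw [mem_image] at ht hu
    obtain ⟨a, _, rfl⟩ := ht
    obtain ⟨b, _, rfl⟩ := hu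
    have hab : (a:ℤ) ≠ b := by
      intro h
      apply htu
      exact_mod_cast h
    have : (1:ℤ) ≤ |(a:ℤ) - b| := Int.one_le_abs (sub_ne_zero.2 hab)
    exact_mod_cast this
  · intro u hu
    rw [mem_image] at hu
    obtain ⟨b, hb, rfl⟩ := hu
    rw [mem_erase] at hb
    have hab : (m:ℤ) ≠ b := by
      intro h
      exact hb.1 (by omega)
    have : (1:ℤ) ≤ |(m:ℤ) - b| := Int.one_le_abs (sub_ne_zero.2 hab)
    exact_mod_cast this
  · intro u hu
    rw [mem_image] at hu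
    obtain ⟨b, hb, rfl⟩ := hu
    rw [mem_erase, mem_Icc] at hb
    rw [abs_le]
    have h1 : (b:ℝ) ≤ M := by exact_mod_cast hb.2.2
    have h2 : (0:ℝ) ≤ m := Nat.cast_nonneg _
    have h3 : (0:ℝ) ≤ b := Nat.cast_nonneg _
    push_cast
    constructor <;> linarith

lemma F_cont (b : ℕ → ℝ) (M : ℕ) (u : ℝ) : Continuous fun x : ℝ => F b M (x * u) := by
  unfold F nv
  fun_prop

/-- the mean square over dilations -/
theorem ms {b : ℕ → ℝ} {β : ℝ} {M : ℕ} (hb : ∀ n ∈ Icc 1 M, |b n| ≤ β) {u : ℝ} (hu : (M:ℝ) ≤ |u|) (hu0 : u ≠ 0) :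
    ∫ x in (1:ℝ)..2, ‖F b M (x * u)‖ ^ 2 ≤ β ^ 2 * (9 * M * (1 + Real.log (2 * M + 1))) := by
  rcases Nat.eq_zero_or_pos M with rfl | hM
  · simp [F]
  have hM1 : (1:ℝ) ≤ M := by exact_mod_cast hM
  have hM0 : (0:ℝ) < M := by linarith
  have hu1 : 0 < |u| := abs_pos.2 hu0
  have hβ : 0 ≤ β := (abs_nonneg _).trans (hb 1 (by rw [mem_Icc]; omega))
  have hlog : 0 ≤ Real.log (2 * M + 1) := Real.log_nonneg (by linarith)
  have hint : ∀ m n : ℕ, IntervalIntegrable (fun x : ℝ => b m * b n * Real.cos (x * u * (Real.log m - Real.log n))) volume 1 2 :=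
    fun m n => (by fun_prop : Continuous fun x : ℝ => b m * b n * Real.cos (x * u * (Real.log m - Real.log n))).intervalIntegrable _ _
  have e1 : ∫ x in (1:ℝ)..2, ‖F b M (x * u)‖ ^ 2 = ∑ m ∈ Icc 1 M, ∑ n ∈ Icc 1 M,
      ∫ x in (1:ℝ)..2, b m * b n * Real.cos (x * u * (Real.log m - Real.log n)) := by
    simp_rw [F_sq]
    rw [intervalIntegral.integral_finsetSum]
    · refine Finset.sum_congr rfl fun m _ => ?_
      rw [intervalIntegral.integral_finsetSum]
      intro n _
      exact hint m n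
    · intro m _
      refine (continuous_finsetSum _ fun n _ => ?_).intervalIntegrable _ _
      fun_prop
  rw [e1]
  -- one row
  have hrow : ∀ m ∈ Icc 1 M, ∑ n ∈ Icc 1 M, ∫ x in (1:ℝ)..2, b m * b n * Real.cos (x * u * (Real.log m - Real.log n)) ≤
      β ^ 2 * (9 * (1 + Real.log (2 * M + 1))) := by
    intro m hm
    rw [← Finset.add_sum_erase _ _ hm]
    have hm' := mem_Icc.1 hm
    have h1 : ∫ x in (1:ℝ)..2, b m * b m * Real.cos (x * u * (Real.log m - Real.log m)) ≤ β ^ 2 := by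
      simp only [sub_self, mul_zero, Real.cos_zero, mul_one]
      rw [intervalIntegral.integral_const, smul_eq_mul]
      have := hb m hm
      have h2 : b m * b m ≤ β ^ 2 := by
        rw [← abs_mul_abs_self, sq]
        exact mul_self_le_mul_self (abs_nonneg _) this
      linarith
    have h2 : ∀ n ∈ (Icc 1 M).erase m, ∫ x in (1:ℝ)..2, b m * b n * Real.cos (x * u * (Real.log m - Real.log n)) ≤
        β ^ 2 * (2 * (1 / |(m:ℝ) - n|)) := by
      intro n hn
      rw [mem_erase] at hn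
      have hn' := mem_Icc.1 hn.2
      have hmn : (0:ℝ) < |(m:ℝ) - n| := by
        rw [abs_pos, sub_ne_zero]
        exact_mod_cast hn.1.symm
      have hld := log_diff (M := M) hm'.1 hn'.1 hm'.2 hn'.2
      have hld0 : 0 < |Real.log m - Real.log n| := lt_of_lt_of_le (by positivity) hld
      rw [intervalIntegral.integral_const_mul]
      refine (le_abs_self _).trans ?_
      rw [abs_mul, abs_mul]
      have h3 : |∫ x in (1:ℝ)..2, Real.cos (x * u * (Real.log m - Real.log n))| ≤ 2 * (1 / |(m:ℝ) - n|) := by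
        have h4 := int_cos (c := u * (Real.log m - Real.log n)) (mul_ne_zero hu0 (abs_pos.1 hld0))
        simp_rw [← mul_assoc] at h4
        refine h4.trans ?_
        rw [abs_mul]
        have h5 : |(m:ℝ) - n| ≤ |u| * |Real.log m - Real.log n| := by
          calc |(m:ℝ) - n| = M * (|(m:ℝ) - n| / M) := by field_simp
            _ ≤ |u| * |Real.log m - Real.log n| := mul_le_mul hu hld (by positivity) hu1.le
        calc 2 / (|u| * |Real.log m - Real.log n|) ≤ 2 / |(m:ℝ) - n| := div_le_div_of_nonneg_left (by norm_num) hmn h5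
          _ = 2 * (1 / |(m:ℝ) - n|) := by ring
      have h4 : |b m| * |b n| ≤ β ^ 2 := by
        rw [sq]
        exact mul_le_mul (hb m hm) (hb n hn.2) (abs_nonneg _) hβ
      exact mul_le_mul h4 h3 (abs_nonneg _) (by positivity)
    have h3 := Finset.sum_le_sum h2
    rw [← Finset.mul_sum, ← Finset.mul_sum] at h3
    have h4 := row M m
    have h5 : Real.log (M + m + 1) ≤ Real.log (2 * M + 1) := by
      have : (m:ℝ) ≤ M := by exact_mod_cast hm'.2
      exact Real.log_le_log (by positivity) (by linarith)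
    have h6 : 2 * ∑ n ∈ (Icc 1 M).erase m, 1 / |(m:ℝ) - n| ≤ 8 * (1 + Real.log (2 * M + 1)) := by linarith
    have h7 := mul_le_mul_of_nonneg_left h6 (sq_nonneg β)
    have h8 : 0 ≤ β ^ 2 * Real.log (2 * M + 1) := by positivity
    nlinarith
  refine (Finset.sum_le_sum hrow).trans (le_of_eq ?_)
  rw [Finset.sum_const, Nat.card_Icc, nsmul_eq_mul, show M + 1 - 1 = M by omega]
  ring

end Pool.Agent.Run7.h290.DS
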