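import Pool.Agent.Run7.h290.DS.B

set_option autoImplicit false

/-! # Duality -/

open Finset MeasureTheory

namespace Pool.Agent.Run7.h290.DS

/-- the cut -/
noncomputable def MM (N : ℕ) (u : ℝ) : ℕ := min N ⌊|u|⌋₊

lemma MM_le (N : ℕ) (u : ℝ) : MM N u ≤ N := min_le_left _ _

lemma MM_le_abs (N : ℕ) (u : ℝ) : (MM N u : ℝ) ≤ |u| := by
  have h : (MM N u : ℝ) ≤ (⌊|u|⌋₊ : ℝ) := by exact_mod_cast min_le_right N ⌊|u|⌋₊
  exact h.trans (Nat.floor_le (abs_nonneg u))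

/-- the pointwise part -/
noncomputable def ka (N : ℕ) (t u : ℝ) : ℝ := if t ≠ u ∧ |t - u| ≤ N then 8 * Real.pi * N / |t - u| else 0

/-- the mean square part -/
noncomputable def Bp (N : ℕ) (x t u : ℝ) : ℝ := if t = u then 0 else ‖F (fun _ => 1) (MM N (t - u)) (x * (t - u))‖

/-- the square of the Hilbert-Schmidt norm -/
noncomputable def HS (N : ℕ) (S : Finset ℝ) (x : ℝ) : ℝ := ∑ t ∈ S, ∑ u ∈ S, Bp N x t u ^ 2

lemma ka_nn (N : ℕ) (t u : ℝ) : 0 ≤ ka N t u := by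
  unfold ka
  split_ifs
  · have := Real.pi_pos
    positivity
  · exact le_rfl

lemma ka_symm (N : ℕ) (t u : ℝ) : ka N t u = ka N u t := by
  unfold ka
  rw [abs_sub_comm]
  simp only [ne_comm]

lemma ka_row (N : ℕ) (S : Finset ℝ) (hS : ∀ t ∈ S, ∀ u ∈ S, t ≠ u → 1 ≤ |t - u|) (t : ℝ) (ht : t ∈ S) :
    ∑ u ∈ S, ka N t u ≤ 8 * Real.pi * N * (4 * (1 + Real.log (N + 1))) := by
  classical
  unfold ka
  rw [← Finset.sum_filter]
  have h := sep_sum (S.filter fun u => t ≠ u ∧ |t - u| ≤ N) ?_ t ?_ N ?_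
  · have hpi := Real.pi_pos
    calc ∑ u ∈ S.filter (fun u => t ≠ u ∧ |t - u| ≤ N), 8 * Real.pi * N / |t - u| =
        8 * Real.pi * N * ∑ u ∈ S.filter (fun u => t ≠ u ∧ |t - u| ≤ N), 1 / |t - u| := by
          rw [Finset.mul_sum]
          exact Finset.sum_congr rfl fun u _ => by ring
      _ ≤ _ := mul_le_mul_of_nonneg_left h (by positivity)
  · intro a ha b hb hab
    exact hS a (mem_filter.1 ha).1 b (mem_filter.1 hb).1 hab
  · intro u hu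
    rw [mem_filter] at hu
    exact hS t ht u hu.1 hu.2.1
  · intro u hu
    exact (mem_filter.1 hu).2.2

/-- the entries of the Gram matrix -/
lemma entry (N : ℕ) {x t u : ℝ} (hx1 : 1 ≤ x) (hx2 : x ≤ 2) :
    ‖∑ n ∈ Icc 1 N, nv (x * (t - u)) n‖ ≤ (if t = u then (N:ℝ) else 0) + ka N t u + Bp N x t u := by
  by_cases htu : t = u
  · have h1 : ‖∑ n ∈ Icc 1 N, nv (x * (t - u)) n‖ ≤ N := by
      refine (norm_sum_le _ _).trans (le_of_eq ?_)
      simp [nv_norm]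
    rw [if_pos htu]
    have h2 := ka_nn N t u
    have h3 : 0 ≤ Bp N x t u := by
      unfold Bp
      split_ifs <;> positivity
    linarith
  · rw [if_neg htu, zero_add]
    have hd : 0 < |t - u| := abs_pos.2 (sub_ne_zero.2 htu)
    have hx0 : 0 < x := by linarith
    have e1 : ∑ n ∈ Icc 1 N, nv (x * (t - u)) n = ∑ n ∈ Icc 1 (MM N (t - u)), nv (x * (t - u)) n +
        ∑ n ∈ Ioc (MM N (t - u)) N, nv (x * (t - u)) n := by
      rw [← Finset.sum_union]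
      · refine Finset.sum_congr ?_ fun _ _ => rfl
        ext n
        have := MM_le N (t - u)
        simp only [mem_union, mem_Icc, mem_Ioc]
        omega
      · rw [Finset.disjoint_left]
        intro n h1 h2
        simp only [mem_Icc, mem_Ioc] at h1 h2
        omega
    rw [e1]
    refine (norm_add_le _ _).trans ?_
    rw [add_comm]
    refine add_le_add ?_ (le_of_eq ?_)
    · rw [nv_abs]
      by_cases hN : |t - u| ≤ N
      · unfold ka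
        rw [if_pos ⟨htu, hN⟩]
        have e2 : |x * (t - u)| = x * |t - u| := by rw [abs_mul, abs_of_pos hx0]
        rw [e2]
        rcases Nat.lt_or_ge (MM N (t - u)) N with hlt | hge
        · have h1 := kl (v := x * |t - u|) (by positivity) (MM N (t - u)) N ?_
          · refine h1.trans ?_
            have hpi := Real.pi_pos
            refine div_le_div_of_nonneg_left (by positivity) hd ?_
            nlinarith
          · have h2 : MM N (t - u) = ⌊|t - u|⌋₊ := by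
              unfold MM at hlt ⊢
              omega
            have h3 := Nat.lt_floor_add_one |t - u|
            rw [h2]
            nlinarith
        · rw [Finset.Ioc_eq_empty (by omega), Finset.sum_empty, norm_zero]
          have hpi := Real.pi_pos
          positivity
      · have h2 : MM N (t - u) = N := by
          unfold MM
          have : N ≤ ⌊|t - u|⌋₊ := Nat.le_floor (by linarith)
          omega
        rw [h2, Finset.Ioc_self, Finset.sum_empty, norm_zero]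
        exact ka_nn N t u
    · unfold Bp F
      rw [if_neg htu]
      congr 1
      refine Finset.sum_congr rfl fun n _ => ?_
      simp

lemma gram (A : Finset ℕ) (S : Finset ℝ) (c : ℝ → ℂ) (x : ℝ) :
    ∑ n ∈ A, ‖∑ t ∈ S, c t * nv (x * t) n‖ ^ 2 ≤ ∑ t ∈ S, ∑ u ∈ S, ‖c t‖ * ‖c u‖ * ‖∑ n ∈ A, nv (x * (t - u)) n‖ := by
  have h1 : ((∑ n ∈ A, ‖∑ t ∈ S, c t * nv (x * t) n‖ ^ 2 : ℝ) : ℂ) =
      ∑ t ∈ S, ∑ u ∈ S, c t * (starRingEnd ℂ) (c u) * ∑ n ∈ A, nv (x * (t - u)) n := by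
    push_cast
    have h2 : ∀ n ∈ A, ((‖∑ t ∈ S, c t * nv (x * t) n‖ : ℝ) : ℂ) ^ 2 =
        ∑ t ∈ S, ∑ u ∈ S, c t * (starRingEnd ℂ) (c u) * nv (x * (t - u)) n := by
      intro n _
      rw [← Complex.mul_conj', map_sum, Finset.sum_mul_sum]
      refine Finset.sum_congr rfl fun t _ => Finset.sum_congr rfl fun u _ => ?_
      rw [map_mul, nv_conj, show x * (t - u) = x * t + -(x * u) by ring, ← nv_mul]
      ring
    rw [Finset.sum_congr rfl h2, Finset.sum_comm]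
    refine Finset.sum_congr rfl fun t _ => ?_
    rw [Finset.sum_comm]
    refine Finset.sum_congr rfl fun u _ => ?_
    rw [Finset.mul_sum]
  have h3 : ∑ n ∈ A, ‖∑ t ∈ S, c t * nv (x * t) n‖ ^ 2 = ‖((∑ n ∈ A, ‖∑ t ∈ S, c t * nv (x * t) n‖ ^ 2 : ℝ) : ℂ)‖ := by
    rw [Complex.norm_real, Real.norm_of_nonneg (Finset.sum_nonneg fun _ _ => by positivity)]
  rw [h3, h1]
  refine (norm_sum_le _ _).trans (Finset.sum_le_sum fun t _ => (norm_sum_le _ _).trans (Finset.sum_le_sum fun u _ => ?_))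
  rw [norm_mul, norm_mul, RCLike.norm_conj]

/-- the dual inequality -/
theorem dual (N : ℕ) (S : Finset ℝ) (hS : ∀ t ∈ S, ∀ u ∈ S, t ≠ u → 1 ≤ |t - u|) {x : ℝ} (hx1 : 1 ≤ x) (hx2 : x ≤ 2) (c : ℝ → ℂ) :
    ∑ n ∈ Icc 1 N, ‖∑ t ∈ S, c t * nv (x * t) n‖ ^ 2 ≤
      (N + 8 * Real.pi * N * (4 * (1 + Real.log (N + 1))) + Real.sqrt (HS N S x)) * ∑ t ∈ S, ‖c t‖ ^ 2 := by
  classical
  obtain ⟨Rr, hRr⟩ : ∃ Rr, Rr = 8 * Real.pi * N * (4 * (1 + Real.log (N + 1))) := ⟨_, rfl⟩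
  have hrow : ∀ t ∈ S, ∑ u ∈ S, ka N t u ≤ Rr := by
    intro t ht
    rw [hRr]
    exact ka_row N S hS t ht
  rw [← hRr]
  refine (gram (Icc 1 N) S c x).trans ?_
  have h1 : ∑ t ∈ S, ∑ u ∈ S, ‖c t‖ * ‖c u‖ * ‖∑ n ∈ Icc 1 N, nv (x * (t - u)) n‖ ≤
      ∑ t ∈ S, ∑ u ∈ S, ‖c t‖ * ‖c u‖ * ((if t = u then (N:ℝ) else 0) + ka N t u + Bp N x t u) :=
    Finset.sum_le_sum fun t _ => Finset.sum_le_sum fun u _ => mul_le_mul_of_nonneg_left (entry N hx1 hx2) (by positivity)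
  refine h1.trans ?_
  have e1 : ∑ t ∈ S, ∑ u ∈ S, ‖c t‖ * ‖c u‖ * ((if t = u then (N:ℝ) else 0) + ka N t u + Bp N x t u) =
      ∑ t ∈ S, ∑ u ∈ S, ‖c t‖ * ‖c u‖ * (if t = u then (N:ℝ) else 0) + ∑ t ∈ S, ∑ u ∈ S, ‖c t‖ * ‖c u‖ * ka N t u +
        ∑ t ∈ S, ∑ u ∈ S, ‖c t‖ * ‖c u‖ * Bp N x t u := by
    simp_rw [mul_add, Finset.sum_add_distrib]
  rw [e1, add_mul, add_mul]
  refine add_le_add (add_le_add ?_ ?_) ?_
  · refine le_of_eq ?_
    rw [Finset.mul_sum]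
    refine Finset.sum_congr rfl fun t ht => ?_
    rw [Finset.sum_eq_single t]
    · rw [if_pos rfl]
      ring
    · intro u _ hut
      rw [if_neg (Ne.symm hut), mul_zero]
    · intro h
      exact absurd ht h
  · -- Schur
    have h2 : ∑ t ∈ S, ∑ u ∈ S, ‖c t‖ * ‖c u‖ * ka N t u ≤ ∑ t ∈ S, ∑ u ∈ S, (‖c t‖ ^ 2 / 2 * ka N t u + ‖c u‖ ^ 2 / 2 * ka N u t) := by
      refine Finset.sum_le_sum fun t _ => Finset.sum_le_sum fun u _ => ?_
      rw [ka_symm N u t, ← add_mul]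
      refine mul_le_mul_of_nonneg_right ?_ (ka_nn N t u)
      nlinarith [sq_nonneg (‖c t‖ - ‖c u‖)]
    refine h2.trans ?_
    have e2 : ∑ t ∈ S, ∑ u ∈ S, (‖c t‖ ^ 2 / 2 * ka N t u + ‖c u‖ ^ 2 / 2 * ka N u t) = ∑ t ∈ S, ‖c t‖ ^ 2 * ∑ u ∈ S, ka N t u := by
      simp_rw [Finset.sum_add_distrib]
      have e3 : ∑ t ∈ S, ∑ u ∈ S, ‖c u‖ ^ 2 / 2 * ka N u t = ∑ t ∈ S, ∑ u ∈ S, ‖c t‖ ^ 2 / 2 * ka N t u := Finset.sum_comm
      rw [e3, ← Finset.sum_add_distrib]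
      refine Finset.sum_congr rfl fun t _ => ?_
      rw [← Finset.mul_sum]
      ring
    rw [e2, Finset.mul_sum]
    refine Finset.sum_le_sum fun t ht => ?_
    rw [mul_comm Rr]
    exact mul_le_mul_of_nonneg_left (hrow t ht) (by positivity)
  · have h3 := Real.sum_mul_le_sqrt_mul_sqrt (S ×ˢ S) (fun p => ‖c p.1‖ * ‖c p.2‖) (fun p => Bp N x p.1 p.2)
    rw [Finset.sum_product, Finset.sum_product, Finset.sum_product] at h3
    simp only at h3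
    refine h3.trans (le_of_eq ?_)
    have e2 : ∑ t ∈ S, ∑ u ∈ S, (‖c t‖ * ‖c u‖) ^ 2 = (∑ t ∈ S, ‖c t‖ ^ 2) ^ 2 := by
      rw [sq (∑ t ∈ S, ‖c t‖ ^ 2), Finset.sum_mul_sum]
      refine Finset.sum_congr rfl fun t _ => Finset.sum_congr rfl fun u _ => ?_
      ring
    rw [e2, Real.sqrt_sq (Finset.sum_nonneg fun _ _ => by positivity), mul_comm]
    rfl

/-- the inequality -/
theorem main_ineq (N : ℕ) (S : Finset ℝ) (hS : ∀ t ∈ S, ∀ u ∈ S, t ≠ u → 1 ≤ |t - u|) {x : ℝ} (hx1 : 1 ≤ x) (hx2 : x ≤ 2) (a : ℕ → ℂ) :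
    ∑ t ∈ S, ‖∑ n ∈ Icc 1 N, a n * nv (x * t) n‖ ^ 2 ≤
      (N + 8 * Real.pi * N * (4 * (1 + Real.log (N + 1))) + Real.sqrt (HS N S x)) * ∑ n ∈ Icc 1 N, ‖a n‖ ^ 2 := by
  obtain ⟨Qn, hQn⟩ : ∃ Qn, Qn = N + 8 * Real.pi * N * (4 * (1 + Real.log (N + 1))) + Real.sqrt (HS N S x) := ⟨_, rfl⟩
  obtain ⟨D, hD⟩ : ∃ D : ℝ → ℂ, D = fun t => ∑ n ∈ Icc 1 N, a n * nv (x * t) n := ⟨_, rfl⟩
  obtain ⟨X, hX⟩ : ∃ X, X = ∑ t ∈ S, ‖D t‖ ^ 2 := ⟨_, rfl⟩
  obtain ⟨G, hG⟩ : ∃ G, G = ∑ n ∈ Icc 1 N, ‖a n‖ ^ 2 := ⟨_, rfl⟩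
  have hQ0 : 0 ≤ Qn := by
    rw [hQn]
    have := Real.pi_pos
    have : 0 ≤ Real.log ((N:ℝ) + 1) := Real.log_nonneg (by have : (0:ℝ) ≤ N := Nat.cast_nonneg N; linarith)
    positivity
  have hX0 : 0 ≤ X := by rw [hX]; positivity
  have hG0 : 0 ≤ G := by rw [hG]; positivity
  have hd := dual N S hS hx1 hx2 (fun t => (starRingEnd ℂ) (D t))
  rw [← hQn] at hd
  simp only [RCLike.norm_conj] at hd
  rw [← hX] at hd
  have e1 : (X : ℂ) = ∑ n ∈ Icc 1 N, a n * ∑ t ∈ S, (starRingEnd ℂ) (D t) * nv (x * t) n := by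
    rw [hX]
    push_cast
    simp_rw [Finset.mul_sum]
    rw [Finset.sum_comm]
    refine Finset.sum_congr rfl fun t _ => ?_
    rw [← Complex.conj_mul', hD]
    simp only
    rw [Finset.mul_sum]
    refine Finset.sum_congr rfl fun n _ => ?_
    ring
  have h2 : X ≤ Real.sqrt G * Real.sqrt (∑ n ∈ Icc 1 N, ‖∑ t ∈ S, (starRingEnd ℂ) (D t) * nv (x * t) n‖ ^ 2) := by
    have h3 : X = ‖(X : ℂ)‖ := by rw [Complex.norm_real, Real.norm_of_nonneg hX0]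
    rw [h3, e1, hG]
    refine (norm_sum_le _ _).trans ?_
    simp_rw [norm_mul]
    exact Real.sum_mul_le_sqrt_mul_sqrt (Icc 1 N) (fun n => ‖a n‖) (fun n => ‖∑ t ∈ S, (starRingEnd ℂ) (D t) * nv (x * t) n‖)
  have h3 : X ≤ Real.sqrt G * Real.sqrt (Qn * X) := h2.trans (mul_le_mul_of_nonneg_left (Real.sqrt_le_sqrt hd) (Real.sqrt_nonneg _))
  have h4 : X ^ 2 ≤ G * (Qn * X) := by
    calc X ^ 2 ≤ (Real.sqrt G * Real.sqrt (Qn * X)) ^ 2 := by gcongr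
      _ = G * (Qn * X) := by rw [mul_pow, Real.sq_sqrt hG0, Real.sq_sqrt (by positivity)]
  have h5 : X ≤ Qn * G := by
    rcases hX0.eq_or_lt with h | h
    · rw [← h]
      positivity
    · nlinarith
  rw [← hQn, ← hG]
  have h6 : ∑ t ∈ S, ‖∑ n ∈ Icc 1 N, a n * nv (x * t) n‖ ^ 2 = X := by rw [hX, hD]
  rw [h6]
  exact h5

end Pool.Agent.Run7.h290.DS
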