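import Pool.Agent.Run7.h290.DS.C
import Pool.Agent.Run7.h290.FT.C

set_option autoImplicit false

/-! # Averages over dilations -/

open Finset MeasureTheory Filter Topology
open scoped ENNReal NNReal

namespace Pool.Agent.Run7.h290.DS

/-- the size -/
noncomputable def Lg (N : ℕ) : ℝ := 9 * N * (1 + Real.log (2 * N + 1))

lemma Lg_nn (N : ℕ) : 0 ≤ Lg N := by
  unfold Lg
  have : (0:ℝ) ≤ N := Nat.cast_nonneg N
  have : 0 ≤ Real.log (2 * N + 1) := Real.log_nonneg (by linarith)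
  positivity

lemma Lg_mono {M N : ℕ} (h : M ≤ N) : Lg M ≤ Lg N := by
  unfold Lg
  have h1 : (M:ℝ) ≤ N := by exact_mod_cast h
  have h0 : (0:ℝ) ≤ M := Nat.cast_nonneg M
  have h2 : Real.log (2 * M + 1) ≤ Real.log (2 * N + 1) := Real.log_le_log (by linarith) (by linarith)
  have h3 : 0 ≤ Real.log (2 * M + 1) := Real.log_nonneg (by linarith)
  gcongr

lemma Bp_cont (N : ℕ) (t u : ℝ) : Continuous fun x => Bp N x t u := by
  unfold Bp
  split_ifs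
  · exact continuous_const
  · exact (F_cont _ _ _).norm

lemma HS_cont (N : ℕ) (S : Finset ℝ) : Continuous (HS N S) := by
  unfold HS
  exact continuous_finsetSum _ fun t _ => continuous_finsetSum _ fun u _ => (Bp_cont N t u).pow 2

lemma HS_nn (N : ℕ) (S : Finset ℝ) (x : ℝ) : 0 ≤ HS N S x := by
  unfold HS
  positivity

lemma Bp_int (N : ℕ) (t u : ℝ) : ∫ x in (1:ℝ)..2, Bp N x t u ^ 2 ≤ Lg N := by
  unfold Bp
  split_ifs with h
  · simpa using Lg_nn N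
  · have h1 := ms (b := fun _ => 1) (β := 1) (M := MM N (t - u)) (by intro n _; simp) (MM_le_abs N (t - u)) (sub_ne_zero.2 h)
    refine h1.trans ?_
    rw [one_pow, one_mul]
    exact Lg_mono (MM_le N (t - u))

lemma HS_int (N : ℕ) (S : Finset ℝ) : ∫ x in (1:ℝ)..2, HS N S x ≤ (S.card : ℝ) ^ 2 * Lg N := by
  unfold HS
  rw [intervalIntegral.integral_finsetSum]
  · have h1 : ∀ t ∈ S, ∫ x in (1:ℝ)..2, ∑ u ∈ S, Bp N x t u ^ 2 ≤ S.card * Lg N := by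
      intro t _
      rw [intervalIntegral.integral_finsetSum]
      · refine (Finset.sum_le_sum fun u _ => Bp_int N t u).trans (le_of_eq ?_)
        rw [Finset.sum_const, nsmul_eq_mul]
      · intro u _
        exact ((Bp_cont N t u).pow 2).intervalIntegrable _ _
    refine (Finset.sum_le_sum h1).trans (le_of_eq ?_)
    rw [Finset.sum_const, nsmul_eq_mul]
    ring
  · intro t _
    exact (continuous_finsetSum _ fun u _ => (Bp_cont N t u).pow 2).intervalIntegrable _ _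

/-- Markov -/
lemma markov (N : ℕ) (S : Finset ℝ) {V : ℝ} (hV : 0 < V) :
    volume {x : ℝ | x ∈ Set.Icc (1:ℝ) 2 ∧ V ≤ HS N S x} ≤ ENNReal.ofReal ((S.card : ℝ) ^ 2 * Lg N / V) := by
  have hc := HS_cont N S
  have h1 := mul_meas_ge_le_integral_of_nonneg (μ := volume.restrict (Set.Ioc (1:ℝ) 2)) (f := HS N S)
    (Eventually.of_forall (HS_nn N S)) (hc.integrableOn_Ioc) V
  rw [← intervalIntegral.integral_of_le (by norm_num : (1:ℝ) ≤ 2)] at h1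
  have h2 := h1.trans (HS_int N S)
  have hm : MeasurableSet {x : ℝ | V ≤ HS N S x} := measurableSet_le measurable_const hc.measurable
  have h3 : volume {x : ℝ | x ∈ Set.Icc (1:ℝ) 2 ∧ V ≤ HS N S x} = (volume.restrict (Set.Ioc (1:ℝ) 2)) {x : ℝ | V ≤ HS N S x} := by
    rw [Measure.restrict_congr_set Ioc_ae_eq_Icc, Measure.restrict_apply hm]
    congr 1
    ext x
    simp only [Set.mem_setOf_eq, Set.mem_inter_iff]
    tauto
  rw [h3]
  have hfin : (volume.restrict (Set.Ioc (1:ℝ) 2)) {x : ℝ | V ≤ HS N S x} ≠ ⊤ := by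
    refine ne_of_lt (lt_of_le_of_lt (measure_mono (Set.subset_univ _)) ?_)
    rw [Measure.restrict_apply_univ]
    simp
  rw [← ENNReal.ofReal_toReal hfin]
  refine ENNReal.ofReal_le_ofReal ?_
  rw [le_div_iff₀ hV, mul_comm]
  exact h2

/-- the derivative in the dilation -/
lemma F_deriv (M : ℕ) (u x : ℝ) : HasDerivAt (fun x : ℝ => F (fun _ => 1) M (x * u))
    (Complex.I * u * F (fun n => Real.log n) M (x * u)) x := by
  unfold F
  rw [Finset.mul_sum]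
  refine HasDerivAt.fun_sum fun n _ => ?_
  unfold nv
  have h1 : HasDerivAt (fun x : ℝ => Complex.I * ((x * u : ℝ) : ℂ) * (Real.log (n:ℝ) : ℂ)) (Complex.I * (u : ℂ) * (Real.log (n:ℝ) : ℂ)) x := by
    have h2 : HasDerivAt (fun x : ℝ => ((x * u : ℝ) : ℂ)) (u : ℂ) x := by
      have := (hasDerivAt_id x).mul_const u
      simp only [one_mul] at this
      exact this.ofReal_comp
    exact (h2.const_mul Complex.I).mul_const _
  have h3 := h1.cexp.const_mul ((1:ℝ) : ℂ)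
  refine h3.congr_deriv ?_
  push_cast
  ring

/-- sums over cells -/
lemma Bp_cells (N : ℕ) {W : ℝ} (hW : 0 < W) {t u : ℝ} (ht : |t| ≤ W) (hu : |u| ≤ W) {J : ℕ} (hJ : 1 ≤ J) (z : ℕ → ℝ)
    (hz : ∀ j < J, z j ∈ Set.Icc (1 + (j:ℝ) * (J:ℝ)⁻¹) (1 + ((j + 1 : ℕ):ℝ) * (J:ℝ)⁻¹)) :
    ∑ j ∈ range J, Bp N (z j) t u ^ 2 ≤ Lg N * (J + 4 * W * (1 + Real.log (N + 1))) := by
  have hJ0 : (0:ℝ) < J := by exact_mod_cast hJ
  have hlog : 0 ≤ Real.log ((N:ℝ) + 1) := Real.log_nonneg (by have : (0:ℝ) ≤ N := Nat.cast_nonneg N; linarith)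
  by_cases htu : t = u
  · have : ∀ j ∈ range J, Bp N (z j) t u ^ 2 = 0 := by
      intro j _
      unfold Bp
      rw [if_pos htu]
      ring
    rw [Finset.sum_congr rfl this, Finset.sum_const_zero]
    have := Lg_nn N
    positivity
  · obtain ⟨w, hw⟩ : ∃ w, w = t - u := ⟨_, rfl⟩
    obtain ⟨M, hM⟩ : ∃ M, M = MM N w := ⟨_, rfl⟩
    have hw0 : w ≠ 0 := by rw [hw]; exact sub_ne_zero.2 htu
    have hwW : |w| ≤ 2 * W := by
      rw [hw]
      calc |t - u| ≤ |t| + |u| := abs_sub _ _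
        _ ≤ 2 * W := by linarith
    have hMN : M ≤ N := by rw [hM]; exact MM_le N w
    have hMw : (M:ℝ) ≤ |w| := by rw [hM]; exact MM_le_abs N w
    obtain ⟨A, hA⟩ : ∃ A, A = 2 * W * (1 + Real.log (N + 1)) := ⟨_, rfl⟩
    have hA0 : 0 < A := by rw [hA]; positivity
    obtain ⟨f, hf⟩ : ∃ f : ℝ → ℂ, f = fun x => F (fun _ => 1) M (x * w) := ⟨_, rfl⟩
    obtain ⟨f', hf'⟩ : ∃ f' : ℝ → ℂ, f' = fun x => Complex.I * w * F (fun n => Real.log n) M (x * w) := ⟨_, rfl⟩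
    have hd : ∀ x, HasDerivAt f (f' x) x := by
      intro x
      rw [hf, hf']
      exact F_deriv M w x
    have hfc : Continuous f := by rw [hf]; exact F_cont _ _ _
    have hfc' : Continuous f' := by
      rw [hf']
      exact continuous_const.mul (F_cont _ _ _)
    have e1 : ∀ j ∈ range J, Bp N (z j) t u ^ 2 = ‖f (z j)‖ ^ 2 := by
      intro j _
      unfold Bp
      rw [if_neg htu, ← hw, ← hM, hf]
    rw [Finset.sum_congr rfl e1]
    have hsob : ∀ j ∈ range J, ‖f (z j)‖ ^ 2 ≤ (J:ℝ) * (∫ x in (1 + (j:ℝ) * (J:ℝ)⁻¹)..(1 + ((j + 1 : ℕ):ℝ) * (J:ℝ)⁻¹), ‖f x‖ ^ 2) +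
        ∫ x in (1 + (j:ℝ) * (J:ℝ)⁻¹)..(1 + ((j + 1 : ℕ):ℝ) * (J:ℝ)⁻¹), (A * ‖f x‖ ^ 2 + A⁻¹ * ‖f' x‖ ^ 2) := by
      intro j hj
      have hlt : 1 + (j:ℝ) * (J:ℝ)⁻¹ < 1 + ((j + 1 : ℕ):ℝ) * (J:ℝ)⁻¹ := by
        have : (0:ℝ) < (J:ℝ)⁻¹ := by positivity
        push_cast
        nlinarith
      have h := Pool.Agent.Run7.h290.FT.sob hd hfc' hlt hA0 (hz j (mem_range.1 hj))
      have e2 : (1 + ((j + 1 : ℕ):ℝ) * (J:ℝ)⁻¹ - (1 + (j:ℝ) * (J:ℝ)⁻¹))⁻¹ = J := by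
        push_cast
        rw [show 1 + ((j:ℝ) + 1) * (J:ℝ)⁻¹ - (1 + (j:ℝ) * (J:ℝ)⁻¹) = (J:ℝ)⁻¹ by ring, inv_inv]
      rw [e2] at h
      exact h
    refine (Finset.sum_le_sum hsob).trans ?_
    have hg1 : Continuous fun x => ‖f x‖ ^ 2 := by fun_prop
    have hg2 : Continuous fun x => A * ‖f x‖ ^ 2 + A⁻¹ * ‖f' x‖ ^ 2 := by fun_prop
    have hg3 : Continuous fun x => ‖f' x‖ ^ 2 := by fun_prop
    rw [Finset.sum_add_distrib, ← Finset.mul_sum]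
    have h2 := intervalIntegral.sum_integral_adjacent_intervals (μ := volume) (f := fun x => ‖f x‖ ^ 2)
      (a := fun j : ℕ => 1 + (j:ℝ) * (J:ℝ)⁻¹) (n := J) (fun k _ => hg1.intervalIntegrable _ _)
    have h3 := intervalIntegral.sum_integral_adjacent_intervals (μ := volume) (f := fun x => A * ‖f x‖ ^ 2 + A⁻¹ * ‖f' x‖ ^ 2)
      (a := fun j : ℕ => 1 + (j:ℝ) * (J:ℝ)⁻¹) (n := J) (fun k _ => hg2.intervalIntegrable _ _)
    have e3 : 1 + (J:ℝ) * (J:ℝ)⁻¹ = 2 := by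
      rw [mul_inv_cancel₀ hJ0.ne']
      norm_num
    have e4 : 1 + ((0:ℕ):ℝ) * (J:ℝ)⁻¹ = 1 := by
      rw [Nat.cast_zero, zero_mul, add_zero]
    rw [h2, h3, e3, e4]
    have h4 : ∫ x in (1:ℝ)..2, ‖f x‖ ^ 2 ≤ Lg N := by
      have := ms (b := fun _ => 1) (β := 1) (M := M) (by intro n _; simp) hMw hw0
      rw [one_pow, one_mul] at this
      rw [hf]
      exact this.trans (Lg_mono hMN)
    have h5 : ∫ x in (1:ℝ)..2, ‖f' x‖ ^ 2 ≤ A ^ 2 * Lg N := by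
      have h6 := ms (b := fun n => Real.log n) (β := 1 + Real.log (N + 1)) (M := M) (by
        intro n hn
        rw [mem_Icc] at hn
        have h7 : (1:ℝ) ≤ n := by exact_mod_cast hn.1
        have h8 : (n:ℝ) ≤ N := by exact_mod_cast hn.2.trans hMN
        rw [abs_of_nonneg (Real.log_nonneg h7)]
        have := Real.log_le_log (by linarith : (0:ℝ) < n) (by linarith : (n:ℝ) ≤ N + 1)
        linarith) hMw hw0
      have e5 : ∀ x, ‖f' x‖ ^ 2 = w ^ 2 * ‖F (fun n => Real.log n) M (x * w)‖ ^ 2 := by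
        intro x
        rw [hf']
        simp only
        rw [norm_mul, norm_mul, Complex.norm_I, one_mul, Complex.norm_real, mul_pow, Real.norm_eq_abs, sq_abs]
      simp_rw [e5]
      rw [intervalIntegral.integral_const_mul]
      have h7 : w ^ 2 ≤ (2 * W) ^ 2 := by
        rw [← sq_abs w]
        gcongr
      have h8 : (9 * (M:ℝ) * (1 + Real.log (2 * M + 1))) ≤ Lg N := Lg_mono hMN
      have h9 : 0 ≤ ∫ x in (1:ℝ)..2, ‖F (fun n => Real.log n) M (x * w)‖ ^ 2 :=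
        intervalIntegral.integral_nonneg (by norm_num) fun _ _ => by positivity
      calc w ^ 2 * ∫ x in (1:ℝ)..2, ‖F (fun n => Real.log n) M (x * w)‖ ^ 2 ≤
          (2 * W) ^ 2 * ((1 + Real.log (N + 1)) ^ 2 * (9 * M * (1 + Real.log (2 * M + 1)))) := mul_le_mul h7 h6 h9 (by positivity)
        _ ≤ (2 * W) ^ 2 * ((1 + Real.log (N + 1)) ^ 2 * Lg N) := by gcongr
        _ = A ^ 2 * Lg N := by rw [hA]; ring
    rw [intervalIntegral.integral_add ((hg1.const_mul A).intervalIntegrable _ _) ((hg3.const_mul A⁻¹).intervalIntegrable _ _),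
      intervalIntegral.integral_const_mul, intervalIntegral.integral_const_mul]
    have h6 : A⁻¹ * ∫ x in (1:ℝ)..2, ‖f' x‖ ^ 2 ≤ A * Lg N := by
      calc A⁻¹ * ∫ x in (1:ℝ)..2, ‖f' x‖ ^ 2 ≤ A⁻¹ * (A ^ 2 * Lg N) := mul_le_mul_of_nonneg_left h5 (by positivity)
        _ = A * Lg N := by field_simp
    have h7 : (J:ℝ) * ∫ x in (1:ℝ)..2, ‖f x‖ ^ 2 ≤ J * Lg N := mul_le_mul_of_nonneg_left h4 hJ0.le
    have h8 : A * ∫ x in (1:ℝ)..2, ‖f x‖ ^ 2 ≤ A * Lg N := mul_le_mul_of_nonneg_left h4 hA0.le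
    have e6 : Lg N * (J + 4 * W * (1 + Real.log (N + 1))) = J * Lg N + (A * Lg N + A * Lg N) := by
      rw [hA]
      ring
    rw [e6]
    linarith

lemma HS_cells (N : ℕ) {S : Finset ℝ} {W : ℝ} (hW : 0 < W) (hS : ∀ t ∈ S, |t| ≤ W) {J : ℕ} (hJ : 1 ≤ J) (z : ℕ → ℝ)
    (hz : ∀ j < J, z j ∈ Set.Icc (1 + (j:ℝ) * (J:ℝ)⁻¹) (1 + ((j + 1 : ℕ):ℝ) * (J:ℝ)⁻¹)) :
    ∑ j ∈ range J, HS N S (z j) ≤ (S.card : ℝ) ^ 2 * (Lg N * (J + 4 * W * (1 + Real.log (N + 1)))) := by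
  unfold HS
  rw [Finset.sum_comm]
  have h1 : ∀ t ∈ S, ∑ j ∈ range J, ∑ u ∈ S, Bp N (z j) t u ^ 2 ≤ S.card * (Lg N * (J + 4 * W * (1 + Real.log (N + 1)))) := by
    intro t ht
    rw [Finset.sum_comm]
    refine (Finset.sum_le_sum fun u hu => Bp_cells N hW (hS t ht) (hS u hu) hJ z hz).trans (le_of_eq ?_)
    rw [Finset.sum_const, nsmul_eq_mul]
  refine (Finset.sum_le_sum h1).trans (le_of_eq ?_)
  rw [Finset.sum_const, nsmul_eq_mul]
  ring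

open Classical in
/-- the number of bad cells -/
theorem cells (N : ℕ) {S : Finset ℝ} {W V : ℝ} (hW : 0 < W) (hV : 0 < V) (hS : ∀ t ∈ S, |t| ≤ W) {J : ℕ} (hJ : 1 ≤ J) :
    (((range J).filter fun j : ℕ => ∃ z ∈ Set.Icc (1 + (j:ℝ) * (J:ℝ)⁻¹) (1 + ((j + 1 : ℕ):ℝ) * (J:ℝ)⁻¹), V ≤ HS N S z).card : ℝ) ≤
      (S.card : ℝ) ^ 2 * (Lg N * (J + 4 * W * (1 + Real.log (N + 1)))) / V := by
  have hex : ∀ j : ℕ, ∃ y : ℝ, y ∈ Set.Icc (1 + (j:ℝ) * (J:ℝ)⁻¹) (1 + ((j + 1 : ℕ):ℝ) * (J:ℝ)⁻¹) ∧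
      ((∃ z ∈ Set.Icc (1 + (j:ℝ) * (J:ℝ)⁻¹) (1 + ((j + 1 : ℕ):ℝ) * (J:ℝ)⁻¹), V ≤ HS N S z) → V ≤ HS N S y) := by
    intro j
    by_cases h : ∃ z ∈ Set.Icc (1 + (j:ℝ) * (J:ℝ)⁻¹) (1 + ((j + 1 : ℕ):ℝ) * (J:ℝ)⁻¹), V ≤ HS N S z
    · obtain ⟨z, hz1, hz2⟩ := h
      exact ⟨z, hz1, fun _ => hz2⟩
    · refine ⟨1 + (j:ℝ) * (J:ℝ)⁻¹, ?_, fun h' => absurd h' h⟩
      refine ⟨le_rfl, ?_⟩
      have : (0:ℝ) ≤ (J:ℝ)⁻¹ := by positivity
      push_cast
      nlinarith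
  choose z hz using hex
  have h1 := HS_cells N hW hS hJ z fun j _ => (hz j).1
  rw [le_div_iff₀ hV]
  refine le_trans ?_ h1
  rw [← nsmul_eq_mul, ← Finset.sum_const]
  refine (Finset.sum_le_sum (g := fun j => HS N S (z j)) fun j hj => (hz j).2 (mem_filter.1 hj).2).trans ?_
  exact Finset.sum_le_sum_of_subset_of_nonneg (Finset.filter_subset _ _) fun _ _ _ => HS_nn N S _

end Pool.Agent.Run7.h290.DS
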