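import Pool.Agent.Run7.h290.DS.D

set_option autoImplicit false

/-! # Exceptional dilations -/

open Finset MeasureTheory Filter Topology MeasureTheory.Measure
open scoped ENNReal NNReal

namespace Pool.Agent.Run7.h290.DS

/-- limsup sets of cells -/
theorem limsup_zero {d : ℝ} (hd0 : 0 < d) {E : Set ℝ} {cl : ℕ → ℕ → Set ℝ} {B : ℕ → Finset ℕ} {r g : ℕ → ℝ} (hr0 : ∀ k, 0 ≤ r k)
    (hra : Antitone r) (hr : Tendsto r atTop (𝓝 0)) (hdiam : ∀ k j, Metric.ediam (cl k j) ≤ ENNReal.ofReal (r k))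
    (hg0 : ∀ k, 0 ≤ g k) (hg : Summable g) (hle : ∀ k, ((B k).card : ℝ) * r k ^ d ≤ g k)
    (hE : ∀ k0, ∀ y ∈ E, ∃ k, k0 ≤ k ∧ ∃ j ∈ B k, y ∈ cl k j) : μH[d] E = 0 := by
  classical
  obtain ⟨t, ht⟩ : ∃ t : ℕ → ℕ × ℕ → Set ℝ, t = fun k0 q => if q.2 ∈ B (k0 + q.1) then cl (k0 + q.1) q.2 else ∅ := ⟨_, rfl⟩
  have htd : ∀ k0 q, Metric.ediam (t k0 q) ≤ ENNReal.ofReal (r k0) := by
    intro k0 q
    rw [ht]
    simp only
    split_ifs
    · exact (hdiam _ _).trans (ENNReal.ofReal_le_ofReal (hra (Nat.le_add_right _ _)))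
    · simp
  have hcov : ∀ k0, E ⊆ ⋃ q, t k0 q := by
    intro k0 y hy
    obtain ⟨k, hk, j, hj, hyj⟩ := hE k0 y hy
    refine Set.mem_iUnion.2 ⟨(k - k0, j), ?_⟩
    rw [ht]
    simp only
    rw [show k0 + (k - k0) = k by omega, if_pos hj]
    exact hyj
  have hr' : Tendsto (fun k0 : ℕ => ENNReal.ofReal (r k0)) atTop (𝓝 0) := by
    rw [← ENNReal.ofReal_zero]
    exact ENNReal.tendsto_ofReal hr
  have hmain := hausdorffMeasure_le_liminf_tsum (ι := fun _ : ℕ => ℕ × ℕ) d E (l := atTop)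
    (fun k0 : ℕ => ENNReal.ofReal (r k0)) hr' t (Eventually.of_forall htd) (Eventually.of_forall hcov)
  have hsum : ∀ k0, ∑' q, Metric.ediam (t k0 q) ^ d ≤ ENNReal.ofReal (∑' i, g (i + k0)) := by
    intro k0
    rw [ENNReal.ofReal_tsum_of_nonneg (fun i => hg0 _) ((summable_nat_add_iff k0).2 hg), ENNReal.tsum_prod']
    refine ENNReal.tsum_le_tsum fun i => ?_
    have h1 : ∀ j, Metric.ediam (t k0 (i, j)) ^ d ≤ if j ∈ B (k0 + i) then ENNReal.ofReal (r (k0 + i) ^ d) else 0 := by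
      intro j
      rw [ht]
      simp only
      split_ifs
      · rw [← ENNReal.ofReal_rpow_of_nonneg (hr0 _) hd0.le]
        exact ENNReal.rpow_le_rpow (hdiam _ _) hd0.le
      · simp [hd0]
    refine (ENNReal.tsum_le_tsum h1).trans ?_
    rw [tsum_eq_sum (s := B (k0 + i)) (fun j hj => if_neg hj)]
    rw [sum_congr rfl fun j hj => if_pos hj, sum_const, nsmul_eq_mul]
    have h2 : ((B (k0 + i)).card : ℝ≥0∞) * ENNReal.ofReal (r (k0 + i) ^ d) = ENNReal.ofReal (((B (k0 + i)).card : ℝ) * r (k0 + i) ^ d) := by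
      rw [ENNReal.ofReal_mul (by positivity), ENNReal.ofReal_natCast]
    rw [h2, add_comm i k0]
    exact ENNReal.ofReal_le_ofReal (hle (k0 + i))
  have hlim : Tendsto (fun k0 => ∑' q, Metric.ediam (t k0 q) ^ d) atTop (𝓝 0) := by
    refine tendsto_of_tendsto_of_tendsto_of_le_of_le tendsto_const_nhds ?_ (fun _ => zero_le) hsum
    rw [← ENNReal.ofReal_zero]
    exact ENNReal.tendsto_ofReal (tendsto_sum_nat_add g)
  rw [hlim.liminf_eq] at hmain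
  exact le_antisymm hmain zero_le

/-- the exceptional set -/
def Ex (δ : ℝ) (S : ℕ → Finset ℝ) : Set ℝ :=
  {x : ℝ | x ∈ Set.Icc (1:ℝ) 2 ∧ ∃ᶠ k : ℕ in atTop, 0 < ((S k).card : ℝ) ∧ ((2:ℝ) ^ k) ^ (1 + 2 * δ) * ((S k).card : ℝ) ^ 2 ≤ HS (2 ^ k) (S k) x}

lemma log_bd (k : ℕ) : 1 + Real.log (2 * ((2:ℝ) ^ k) + 1) ≤ k + 3 ∧ 1 + Real.log ((2:ℝ) ^ k + 1) ≤ k + 3 := by
  have h1 : (1:ℝ) ≤ 2 ^ k := one_le_pow₀ (by norm_num)
  have h2 : Real.log ((2:ℝ) ^ (k + 2)) ≤ k + 2 := by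
    rw [Real.log_pow]
    have : Real.log 2 ≤ 1 := by
      have := Real.log_two_lt_d9
      linarith
    push_cast
    nlinarith [(Nat.cast_nonneg k : (0:ℝ) ≤ k)]
  have h3 : Real.log (2 * ((2:ℝ) ^ k) + 1) ≤ Real.log ((2:ℝ) ^ (k + 2)) := by
    refine Real.log_le_log (by positivity) ?_
    rw [pow_add]
    linarith
  have h4 : Real.log ((2:ℝ) ^ k + 1) ≤ Real.log ((2:ℝ) ^ (k + 2)) := by
    refine Real.log_le_log (by positivity) ?_
    rw [pow_add]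
    linarith
  constructor <;> linarith

theorem Ex_zero {A δ d : ℝ} (hA : 0 < A) (hd0 : 0 < d) (hd : A * (1 - d) < 2 * δ) {S : ℕ → Finset ℝ}
    (hS : ∀ k, ∀ t ∈ S k, |t| ≤ ((2:ℝ) ^ k) ^ A) : μH[d] (Ex δ S) = 0 := by
  classical
  obtain ⟨ε, hε⟩ : ∃ ε, ε = 2 * δ - A * (1 - d) := ⟨_, rfl⟩
  have hε0 : 0 < ε := by rw [hε]; linarith
  obtain ⟨J, hJ⟩ : ∃ J : ℕ → ℕ, J = fun k => ⌈((2:ℝ) ^ k) ^ A⌉₊ := ⟨_, rfl⟩
  have hX1 : ∀ k : ℕ, (1:ℝ) ≤ ((2:ℝ) ^ k) ^ A := fun k => Real.one_le_rpow (one_le_pow₀ (by norm_num)) hA.le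
  have hJge : ∀ k, ((2:ℝ) ^ k) ^ A ≤ J k := by
    intro k
    rw [hJ]
    exact Nat.le_ceil _
  have hJle : ∀ k, (J k : ℝ) ≤ 2 * ((2:ℝ) ^ k) ^ A := by
    intro k
    rw [hJ]
    have := Nat.ceil_lt_add_one (a := ((2:ℝ) ^ k) ^ A) (by positivity)
    simp only
    linarith [hX1 k]
  have hJ1 : ∀ k, 1 ≤ J k := by
    intro k
    have h : (1:ℝ) ≤ J k := (hX1 k).trans (hJge k)
    exact_mod_cast h
  have hJmono : Monotone J := by
    rw [hJ]
    intro k l hkl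
    refine Nat.ceil_le_ceil ?_
    exact Real.rpow_le_rpow (by positivity) (pow_le_pow_right₀ (by norm_num) hkl) hA.le
  refine limsup_zero (r := fun k => ((J k : ℝ))⁻¹) (g := Pool.Agent.Run7.h290.FT.gk 810 ε)
    (cl := fun k j => Set.Icc (1 + (j:ℝ) * (J k:ℝ)⁻¹) (1 + ((j + 1 : ℕ):ℝ) * (J k:ℝ)⁻¹))
    (B := fun k => if 0 < ((S k).card : ℝ) then (range (J k)).filter fun j : ℕ => ∃ z ∈ Set.Icc (1 + (j:ℝ) * (J k:ℝ)⁻¹) (1 + ((j + 1 : ℕ):ℝ) * (J k:ℝ)⁻¹),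
      ((2:ℝ) ^ k) ^ (1 + 2 * δ) * ((S k).card : ℝ) ^ 2 ≤ HS (2 ^ k) (S k) z else ∅) hd0 ?_ ?_ ?_ ?_ ?_
    (Pool.Agent.Run7.h290.FT.gk_summable 810 hε0) ?_ ?_
  · intro k
    positivity
  · intro k l hkl
    have h1 : (J k : ℝ) ≤ J l := by exact_mod_cast hJmono hkl
    have h2 : (0:ℝ) < J k := by exact_mod_cast hJ1 k
    exact inv_anti₀ h2 h1
  · refine Tendsto.inv_tendsto_atTop ?_
    refine tendsto_atTop_mono hJge ?_
    have h1 : Tendsto (fun k : ℕ => (2:ℝ) ^ k) atTop atTop := tendsto_pow_atTop_atTop_of_one_lt (by norm_num)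
    exact (tendsto_rpow_atTop hA).comp h1
  · intro k j
    rw [Real.ediam_Icc]
    refine ENNReal.ofReal_le_ofReal (le_of_eq ?_)
    push_cast
    ring
  · intro k
    unfold Pool.Agent.Run7.h290.FT.gk
    positivity
  · intro k
    split_ifs with hc
    · obtain ⟨X, hX⟩ : ∃ X : ℝ, X = (2:ℝ) ^ k := ⟨_, rfl⟩
      have hX0 : 0 < X := by rw [hX]; positivity
      have hk := log_bd k
      have h1 := cells (2 ^ k) (S := S k) (W := X ^ A) (V := X ^ (1 + 2 * δ) * ((S k).card : ℝ) ^ 2) (by positivity) (by positivity)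
        (by intro t ht; rw [hX]; exact hS k t ht) (hJ1 k)
      rw [← hX] at hk ⊢
      have hJk := hJge k
      have hJk2 := hJle k
      rw [← hX] at hJk hJk2
      have hJ0 : (0:ℝ) < J k := by exact_mod_cast hJ1 k
      have e1 : ((2 ^ k : ℕ) : ℝ) = X := by rw [hX]; push_cast; rfl
      have hL : Lg (2 ^ k) ≤ 9 * X * (k + 3) := by
        unfold Lg
        rw [e1]
        exact mul_le_mul_of_nonneg_left hk.1 (by positivity)
      rw [e1] at h1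
      have h2 : (J k : ℝ) + 4 * X ^ A * (1 + Real.log (X + 1)) ≤ 5 * J k * (k + 3) := by
        have h3 : 4 * X ^ A * (1 + Real.log (X + 1)) ≤ 4 * J k * (k + 3) := by
          have h4 : 0 ≤ 1 + Real.log (X + 1) := by
            have := Real.log_nonneg (by linarith : (1:ℝ) ≤ X + 1)
            linarith
          calc 4 * X ^ A * (1 + Real.log (X + 1)) ≤ 4 * J k * (1 + Real.log (X + 1)) := by gcongr
            _ ≤ 4 * J k * (k + 3) := by
              refine mul_le_mul_of_nonneg_left hk.2 (by positivity)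
        nlinarith [(Nat.cast_nonneg k : (0:ℝ) ≤ k)]
      have h5 : (((range (J k)).filter fun j : ℕ => ∃ z ∈ Set.Icc (1 + (j:ℝ) * (J k:ℝ)⁻¹) (1 + ((j + 1 : ℕ):ℝ) * (J k:ℝ)⁻¹),
          X ^ (1 + 2 * δ) * ((S k).card : ℝ) ^ 2 ≤ HS (2 ^ k) (S k) z).card : ℝ) ≤ 45 * ((k:ℝ) + 3) ^ 2 * J k * X ^ (-(2 * δ)) := by
        refine h1.trans ?_
        rw [div_le_iff₀ (by positivity)]
        have h6 : Lg (2 ^ k) * (J k + 4 * X ^ A * (1 + Real.log (X + 1))) ≤ (9 * X * (k + 3)) * (5 * J k * (k + 3)) := by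
          refine mul_le_mul hL h2 ?_ (by positivity)
          have h4 : 0 ≤ 1 + Real.log (X + 1) := by
            have := Real.log_nonneg (by linarith : (1:ℝ) ≤ X + 1)
            linarith
          positivity
        have e2 : X ^ (-(2 * δ)) * X ^ (1 + 2 * δ) = X := by
          rw [← Real.rpow_add hX0, show -(2 * δ) + (1 + 2 * δ) = 1 by ring, Real.rpow_one]
        calc ((S k).card : ℝ) ^ 2 * (Lg (2 ^ k) * (J k + 4 * X ^ A * (1 + Real.log (X + 1)))) ≤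
            ((S k).card : ℝ) ^ 2 * ((9 * X * (k + 3)) * (5 * J k * (k + 3))) := mul_le_mul_of_nonneg_left h6 (by positivity)
          _ = 45 * ((k:ℝ) + 3) ^ 2 * J k * (X ^ (-(2 * δ)) * X ^ (1 + 2 * δ)) * ((S k).card : ℝ) ^ 2 := by rw [e2]; ring
          _ = _ := by ring
      have h6 : (J k : ℝ) * ((J k : ℝ)⁻¹) ^ d ≤ 2 * X ^ (A * (1 - d)) := by
        have e3 : (J k : ℝ) * ((J k : ℝ)⁻¹) ^ d = (J k : ℝ) ^ (1 - d) := by
          rw [Real.inv_rpow hJ0.le, ← Real.rpow_neg hJ0.le]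
          nth_rewrite 1 [← Real.rpow_one (J k : ℝ)]
          rw [← Real.rpow_add hJ0]
          congr 1
        rw [e3, Real.rpow_mul hX0.le]
        rcases le_or_gt d 1 with h | h
        · calc (J k : ℝ) ^ (1 - d) ≤ (2 * X ^ A) ^ (1 - d) := Real.rpow_le_rpow hJ0.le hJk2 (by linarith)
            _ = 2 ^ (1 - d) * (X ^ A) ^ (1 - d) := Real.mul_rpow (by norm_num) (by positivity)
            _ ≤ 2 * (X ^ A) ^ (1 - d) := by
              refine mul_le_mul_of_nonneg_right ?_ (by positivity)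
              calc (2:ℝ) ^ (1 - d) ≤ (2:ℝ) ^ (1:ℝ) := Real.rpow_le_rpow_of_exponent_le (by norm_num) (by linarith)
                _ = 2 := Real.rpow_one 2
        · have h7 : (J k : ℝ) ^ (1 - d) ≤ (X ^ A) ^ (1 - d) := Real.rpow_le_rpow_of_nonpos (by positivity) hJk (by linarith)
          have h8 : 0 < (X ^ A) ^ (1 - d) := by positivity
          linarith
      have e4 : X ^ (-(2 * δ)) * X ^ (A * (1 - d)) = ((2:ℝ) ^ (-ε)) ^ k := by
        rw [← Real.rpow_add hX0, hX, ← Real.rpow_natCast, ← Real.rpow_natCast, ← Real.rpow_mul (by norm_num), ← Real.rpow_mul (by norm_num)]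
        congr 1
        rw [hε]
        ring
      unfold Pool.Agent.Run7.h290.FT.gk
      have h9 : ((k:ℝ) + 3) ^ 2 ≤ 9 * ((k:ℝ) + 1) ^ 2 := by nlinarith [(Nat.cast_nonneg k : (0:ℝ) ≤ k)]
      calc _ ≤ (45 * ((k:ℝ) + 3) ^ 2 * J k * X ^ (-(2 * δ))) * ((J k : ℝ)⁻¹) ^ d := mul_le_mul_of_nonneg_right h5 (by positivity)
        _ = 45 * ((k:ℝ) + 3) ^ 2 * X ^ (-(2 * δ)) * ((J k : ℝ) * ((J k : ℝ)⁻¹) ^ d) := by ring
        _ ≤ 45 * ((k:ℝ) + 3) ^ 2 * X ^ (-(2 * δ)) * (2 * X ^ (A * (1 - d))) := mul_le_mul_of_nonneg_left h6 (by positivity)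
        _ = 90 * ((k:ℝ) + 3) ^ 2 * (X ^ (-(2 * δ)) * X ^ (A * (1 - d))) := by ring
        _ = 90 * ((k:ℝ) + 3) ^ 2 * ((2:ℝ) ^ (-ε)) ^ k := by rw [e4]
        _ ≤ 90 * (9 * ((k:ℝ) + 1) ^ 2) * ((2:ℝ) ^ (-ε)) ^ k := by gcongr
        _ = _ := by ring
    · rw [Finset.card_empty, Nat.cast_zero, zero_mul]
      unfold Pool.Agent.Run7.h290.FT.gk
      positivity
  · intro k0 y hy
    obtain ⟨hy1, hy2⟩ := hy
    obtain ⟨k, hk, hc, hHS⟩ := frequently_atTop.1 hy2 k0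
    refine ⟨k, hk, ?_⟩
    rw [if_pos hc]
    have hJ0 : (0:ℝ) < J k := by exact_mod_cast hJ1 k
    -- the index
    obtain ⟨j, hj⟩ : ∃ j : ℕ, j = min ⌊(y - 1) * J k⌋₊ (J k - 1) := ⟨_, rfl⟩
    have hJ1' := hJ1 k
    have hjJ : j < J k := by omega
    have hmem : y ∈ Set.Icc (1 + (j:ℝ) * (J k:ℝ)⁻¹) (1 + ((j + 1 : ℕ):ℝ) * (J k:ℝ)⁻¹) := by
      have hy0 : 0 ≤ (y - 1) * J k := mul_nonneg (by linarith [hy1.1]) hJ0.le
      have h1 : (j:ℝ) ≤ (y - 1) * J k := by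
        have h2 : (j:ℝ) ≤ (⌊(y - 1) * J k⌋₊ : ℝ) := by
          have : j ≤ ⌊(y - 1) * J k⌋₊ := by omega
          exact_mod_cast this
        exact h2.trans (Nat.floor_le hy0)
      have h3 : (y - 1) * J k ≤ ((j + 1 : ℕ) : ℝ) := by
        rcases le_or_gt (J k) ⌊(y - 1) * J k⌋₊ with h | h
        · have h4 : j + 1 = J k := by omega
          rw [h4]
          nlinarith [hy1.2]
        · have h4 : j = ⌊(y - 1) * J k⌋₊ := by omega
          have h5 := Nat.lt_floor_add_one ((y - 1) * J k)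
          rw [← h4] at h5
          push_cast
          exact h5.le
      constructor
      · have : (j:ℝ) * (J k:ℝ)⁻¹ ≤ y - 1 := by
          rw [← div_eq_mul_inv, div_le_iff₀ hJ0]
          exact h1
        linarith
      · have : y - 1 ≤ ((j + 1 : ℕ):ℝ) * (J k:ℝ)⁻¹ := by
          rw [← div_eq_mul_inv, le_div_iff₀ hJ0]
          exact h3
        linarith
    exact ⟨j, mem_filter.2 ⟨mem_range.2 hjJ, y, hmem, hHS⟩, hmem⟩

theorem Ex_dim {A δ : ℝ} (hA : 0 < A) {S : ℕ → Finset ℝ} (hS : ∀ k, ∀ t ∈ S k, |t| ≤ ((2:ℝ) ^ k) ^ A) :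
    dimH (Ex δ S) ≤ ENNReal.ofReal (1 - 2 * δ / A) := by
  refine ENNReal.le_of_forall_pos_le_add fun ε hε _ => ?_
  obtain ⟨d, hd⟩ : ∃ d : ℝ≥0, d = Real.toNNReal (1 - 2 * δ / A) + ε := ⟨_, rfl⟩
  have hε' : (0:ℝ) < ε := hε
  have hd1 : (d : ℝ) = max (1 - 2 * δ / A) 0 + ε := by
    rw [hd, NNReal.coe_add, Real.coe_toNNReal']
  have h0 : (0:ℝ) < d := by
    rw [hd1]
    have := le_max_right (1 - 2 * δ / A) 0
    linarith
  have h1 : A * (1 - d) < 2 * δ := by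
    have h2 : 1 - 2 * δ / A < d := by
      rw [hd1]
      have := le_max_left (1 - 2 * δ / A) 0
      linarith
    have h3 : 1 - (d:ℝ) < 2 * δ / A := by linarith
    rw [lt_div_iff₀ hA] at h3
    linarith
  have h2 := Ex_zero hA h0 h1 hS
  have h3 : dimH (Ex δ S) ≤ d := dimH_le_of_hausdorffMeasure_ne_top (by rw [h2]; exact ENNReal.zero_ne_top)
  refine h3.trans (le_of_eq ?_)
  rw [hd, ENNReal.coe_add]
  rfl

end Pool.Agent.Run7.h290.DS
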