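import Pool.Agent.Run7.h290.DS.E

set_option autoImplicit false

/-! # The inequality outside the exceptional sets -/

open Finset MeasureTheory Filter Topology MeasureTheory.Measure
open scoped ENNReal NNReal

namespace Pool.Agent.Run7.h290.DS

/-- the inequality for all coefficients and all translates of the dilate `xS` -/
def Holds (N : ℕ) (S : Finset ℝ) (x B : ℝ) : Prop := ∀ (a : ℕ → ℂ) (y : ℝ),
  ∑ t ∈ S, ‖∑ n ∈ Icc 1 N, a n * nv (x * t + y) n‖ ^ 2 ≤ B * ∑ n ∈ Icc 1 N, ‖a n‖ ^ 2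

lemma holds_mono {N : ℕ} {S : Finset ℝ} {x B B' : ℝ} (h : Holds N S x B) (hB : B ≤ B') : Holds N S x B' := by
  intro a y
  exact (h a y).trans (mul_le_mul_of_nonneg_right hB (by positivity))

lemma holds_empty (N : ℕ) (x : ℝ) {B : ℝ} (hB : 0 ≤ B) : Holds N ∅ x B := by
  intro a y
  rw [Finset.sum_empty]
  positivity

lemma holds_of (N : ℕ) (S : Finset ℝ) (hS : ∀ t ∈ S, ∀ u ∈ S, t ≠ u → 1 ≤ |t - u|) {x : ℝ} (hx1 : 1 ≤ x) (hx2 : x ≤ 2) :
    Holds N S x (N + 8 * Real.pi * N * (4 * (1 + Real.log (N + 1))) + Real.sqrt (HS N S x)) := by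
  intro a y
  have h := main_ineq N S hS hx1 hx2 (fun n => a n * nv y n)
  simp only [norm_mul, nv_norm, mul_one] at h
  refine le_trans (le_of_eq ?_) h
  refine Finset.sum_congr rfl fun t _ => ?_
  congr 2
  refine Finset.sum_congr rfl fun n _ => ?_
  rw [mul_assoc, nv_mul, add_comm y]

/-- almost all dilations -/
theorem Ex_null {δ : ℝ} (hδ : 0 < δ) (S : ℕ → Finset ℝ) : volume (Ex δ S) = 0 := by
  have h := measure_setOfPred_frequently_eq_zero (μ := volume) (p := fun (k : ℕ) (x : ℝ) => x ∈ Set.Icc (1:ℝ) 2 ∧ (0 < ((S k).card : ℝ) ∧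
    ((2:ℝ) ^ k) ^ (1 + 2 * δ) * ((S k).card : ℝ) ^ 2 ≤ HS (2 ^ k) (S k) x)) ?_
  · refine measure_mono_null ?_ h
    intro x hx
    obtain ⟨h1, h2⟩ := hx
    exact h2.mono fun k hk => ⟨h1, hk⟩
  · have hb : ∀ k : ℕ, volume {x : ℝ | x ∈ Set.Icc (1:ℝ) 2 ∧ (0 < ((S k).card : ℝ) ∧
        ((2:ℝ) ^ k) ^ (1 + 2 * δ) * ((S k).card : ℝ) ^ 2 ≤ HS (2 ^ k) (S k) x)} ≤ ENNReal.ofReal (Pool.Agent.Run7.h290.FT.gk 27 (2 * δ) k) := by
      intro k
      obtain ⟨X, hX⟩ : ∃ X : ℝ, X = (2:ℝ) ^ k := ⟨_, rfl⟩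
      have hX0 : 0 < X := by rw [hX]; positivity
      by_cases hc : 0 < ((S k).card : ℝ)
      · have h1 := markov (2 ^ k) (S k) (V := X ^ (1 + 2 * δ) * ((S k).card : ℝ) ^ 2) (by positivity)
        have h2 : {x : ℝ | x ∈ Set.Icc (1:ℝ) 2 ∧ (0 < ((S k).card : ℝ) ∧ ((2:ℝ) ^ k) ^ (1 + 2 * δ) * ((S k).card : ℝ) ^ 2 ≤ HS (2 ^ k) (S k) x)} ⊆
            {x : ℝ | x ∈ Set.Icc (1:ℝ) 2 ∧ X ^ (1 + 2 * δ) * ((S k).card : ℝ) ^ 2 ≤ HS (2 ^ k) (S k) x} := by
          intro x hx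
          rw [hX]
          exact ⟨hx.1, hx.2.2⟩
        refine (measure_mono h2).trans (h1.trans (ENNReal.ofReal_le_ofReal ?_))
        rw [div_le_iff₀ (by positivity)]
        have e1 : ((2 ^ k : ℕ) : ℝ) = X := by rw [hX]; push_cast; rfl
        have hk := (log_bd k).1
        rw [← hX] at hk
        have hL : Lg (2 ^ k) ≤ 9 * X * (k + 3) := by
          unfold Lg
          rw [e1]
          exact mul_le_mul_of_nonneg_left hk (by positivity)
        have e2 : ((2:ℝ) ^ (-(2 * δ))) ^ k * X ^ (1 + 2 * δ) = X := by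
          have : ((2:ℝ) ^ (-(2 * δ))) ^ k = X ^ (-(2 * δ)) := by
            rw [hX, ← Real.rpow_natCast, ← Real.rpow_natCast, ← Real.rpow_mul (by norm_num), ← Real.rpow_mul (by norm_num)]
            congr 1
            ring
          rw [this, ← Real.rpow_add hX0, show -(2 * δ) + (1 + 2 * δ) = 1 by ring, Real.rpow_one]
        unfold Pool.Agent.Run7.h290.FT.gk
        have h9 : (k:ℝ) + 3 ≤ 3 * ((k:ℝ) + 1) ^ 2 := by nlinarith [(Nat.cast_nonneg k : (0:ℝ) ≤ k)]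
        calc ((S k).card : ℝ) ^ 2 * Lg (2 ^ k) ≤ ((S k).card : ℝ) ^ 2 * (9 * X * (k + 3)) := mul_le_mul_of_nonneg_left hL (by positivity)
          _ ≤ ((S k).card : ℝ) ^ 2 * (9 * X * (3 * ((k:ℝ) + 1) ^ 2)) := by gcongr
          _ = ((S k).card : ℝ) ^ 2 * (27 * ((k:ℝ) + 1) ^ 2 * X) := by ring
          _ = 27 * (((k:ℝ) + 1) ^ 2 * ((2:ℝ) ^ (-(2 * δ))) ^ k) * (X ^ (1 + 2 * δ) * ((S k).card : ℝ) ^ 2) := by
            rw [show 27 * (((k:ℝ) + 1) ^ 2 * ((2:ℝ) ^ (-(2 * δ))) ^ k) * (X ^ (1 + 2 * δ) * ((S k).card : ℝ) ^ 2) =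
              ((S k).card : ℝ) ^ 2 * (27 * ((k:ℝ) + 1) ^ 2 * (((2:ℝ) ^ (-(2 * δ))) ^ k * X ^ (1 + 2 * δ))) by ring, e2]
      · have h2 : {x : ℝ | x ∈ Set.Icc (1:ℝ) 2 ∧ (0 < ((S k).card : ℝ) ∧ ((2:ℝ) ^ k) ^ (1 + 2 * δ) * ((S k).card : ℝ) ^ 2 ≤ HS (2 ^ k) (S k) x)} ⊆ ∅ := by
          intro x hx
          exact absurd hx.2.1 hc
        exact (measure_mono h2).trans (by simp)
    have hg0 : ∀ k, 0 ≤ Pool.Agent.Run7.h290.FT.gk 27 (2 * δ) k := by
      intro k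
      unfold Pool.Agent.Run7.h290.FT.gk
      positivity
    refine ne_of_lt (lt_of_le_of_lt (ENNReal.tsum_le_tsum hb) ?_)
    rw [← ENNReal.ofReal_tsum_of_nonneg hg0 (Pool.Agent.Run7.h290.FT.gk_summable 27 (by linarith))]
    exact ENNReal.ofReal_lt_top

/-- outside the exceptional set -/
theorem holds_ev {δ : ℝ} (hδ : 0 < δ) {S : ℕ → Finset ℝ} (hS : ∀ k, ∀ t ∈ S k, ∀ u ∈ S k, t ≠ u → 1 ≤ |t - u|) {x : ℝ}
    (hx : x ∈ Set.Icc (1:ℝ) 2) (hE : x ∉ Ex δ S) :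
    ∀ᶠ k : ℕ in atTop, Holds (2 ^ k) (S k) x (((2:ℝ) ^ k) ^ δ * ((2:ℝ) ^ k + (S k).card * ((2:ℝ) ^ k) ^ (1 / 2 : ℝ))) := by
  have h1 : ∀ᶠ k : ℕ in atTop, ¬ (0 < ((S k).card : ℝ) ∧ ((2:ℝ) ^ k) ^ (1 + 2 * δ) * ((S k).card : ℝ) ^ 2 ≤ HS (2 ^ k) (S k) x) := by
    by_contra h
    exact hE ⟨hx, h⟩
  have h2 : ∀ᶠ k : ℕ in atTop, Pool.Agent.Run7.h290.FT.gk 1000 δ k < 1 :=
    (Pool.Agent.Run7.h290.FT.gk_summable 1000 hδ).tendsto_atTop_zero.eventually (gt_mem_nhds one_pos)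
  filter_upwards [h1, h2] with k hk1 hk2
  obtain ⟨X, hX⟩ : ∃ X : ℝ, X = (2:ℝ) ^ k := ⟨_, rfl⟩
  have hX0 : 0 < X := by rw [hX]; positivity
  have hk := (log_bd k).2
  rw [← hX] at hk hk1 ⊢
  rcases (S k).eq_empty_or_nonempty with he | hne
  · rw [he]
    exact holds_empty _ _ (by positivity)
  have hc : 0 < ((S k).card : ℝ) := by exact_mod_cast Finset.card_pos.2 hne
  have hHS : HS (2 ^ k) (S k) x < X ^ (1 + 2 * δ) * ((S k).card : ℝ) ^ 2 := by
    by_contra h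
    exact hk1 ⟨hc, not_lt.1 h⟩
  refine holds_mono (holds_of (2 ^ k) (S k) (hS k) hx.1 hx.2) ?_
  have e1 : ((2 ^ k : ℕ) : ℝ) = X := by rw [hX]; push_cast; rfl
  rw [e1, mul_add (X ^ δ)]
  refine add_le_add ?_ ?_
  · -- the main term
    have e2 : X ^ δ * ((2:ℝ) ^ (-δ)) ^ k = 1 := by
      have : ((2:ℝ) ^ (-δ)) ^ k = X ^ (-δ) := by
        rw [hX, ← Real.rpow_natCast, ← Real.rpow_natCast, ← Real.rpow_mul (by norm_num), ← Real.rpow_mul (by norm_num)]
        congr 1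
        ring
      rw [this, ← Real.rpow_add hX0, add_neg_cancel, Real.rpow_zero]
    have h3 : 1000 * ((k:ℝ) + 1) ^ 2 ≤ X ^ δ := by
      unfold Pool.Agent.Run7.h290.FT.gk at hk2
      have h4 := mul_le_mul_of_nonneg_left hk2.le (by positivity : (0:ℝ) ≤ X ^ δ)
      calc 1000 * ((k:ℝ) + 1) ^ 2 = 1000 * ((k:ℝ) + 1) ^ 2 * (X ^ δ * ((2:ℝ) ^ (-δ)) ^ k) := by rw [e2, mul_one]
        _ = X ^ δ * (1000 * (((k:ℝ) + 1) ^ 2 * ((2:ℝ) ^ (-δ)) ^ k)) := by ring
        _ ≤ X ^ δ * 1 := h4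
        _ = X ^ δ := mul_one _
    have hpi := Real.pi_lt_d2
    have hpi0 := Real.pi_pos
    have h5 : 8 * Real.pi * X * (4 * (1 + Real.log (X + 1))) ≤ X * (101 * (k + 3)) := by
      have h6 : 0 ≤ 1 + Real.log (X + 1) := by
        have := Real.log_nonneg (by linarith : (1:ℝ) ≤ X + 1)
        linarith
      calc 8 * Real.pi * X * (4 * (1 + Real.log (X + 1))) = X * ((32 * Real.pi) * (1 + Real.log (X + 1))) := by ring
        _ ≤ X * (101 * (k + 3)) := by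
          refine mul_le_mul_of_nonneg_left ?_ hX0.le
          exact mul_le_mul (by linarith) hk h6 (by norm_num)
    have h7 : 1 + 101 * ((k:ℝ) + 3) ≤ 1000 * ((k:ℝ) + 1) ^ 2 := by nlinarith [(Nat.cast_nonneg k : (0:ℝ) ≤ k)]
    calc X + 8 * Real.pi * X * (4 * (1 + Real.log (X + 1))) ≤ X + X * (101 * (k + 3)) := by linarith
      _ = X * (1 + 101 * ((k:ℝ) + 3)) := by ring
      _ ≤ X * X ^ δ := mul_le_mul_of_nonneg_left (h7.trans h3) hX0.le
      _ = X ^ δ * X := mul_comm _ _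
  · have h3 : Real.sqrt (HS (2 ^ k) (S k) x) ≤ Real.sqrt ((X ^ δ * ((S k).card * X ^ (1 / 2 : ℝ))) ^ 2) := by
      refine Real.sqrt_le_sqrt (hHS.le.trans (le_of_eq ?_))
      have e3 : (X ^ δ) ^ 2 * (X ^ (1 / 2 : ℝ)) ^ 2 = X ^ (1 + 2 * δ) := by
        rw [← Real.rpow_natCast, ← Real.rpow_natCast, ← Real.rpow_mul hX0.le, ← Real.rpow_mul hX0.le, ← Real.rpow_add hX0]
        congr 1
        push_cast
        ring
      rw [← e3]
      ring
    rwa [Real.sqrt_sq (by positivity)] at h3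

/-- the constants -/
lemma consts {N : ℕ} (hN : 2 ≤ N) : N + 8 * Real.pi * N * (4 * (1 + Real.log (N + 1))) ≤ 600 * (N * Real.log N) ∧
    Lg N ≤ 49 * (N * Real.log N) := by
  have hN2 : (2:ℝ) ≤ N := by exact_mod_cast hN
  have hN0 : (0:ℝ) < N := by linarith
  have hl2 := Real.log_two_gt_d9
  have hl : Real.log 2 ≤ Real.log N := Real.log_le_log (by norm_num) hN2
  have h1 : Real.log (N + 1) ≤ 2 * Real.log N := by
    have : Real.log ((N:ℝ) + 1) ≤ Real.log ((N:ℝ) ^ 2) := Real.log_le_log (by linarith) (by nlinarith)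
    rw [Real.log_pow] at this
    exact_mod_cast this
  have h2 : Real.log (2 * N + 1) ≤ 3 * Real.log N := by
    have : Real.log (2 * (N:ℝ) + 1) ≤ Real.log ((N:ℝ) ^ 3) := by
      refine Real.log_le_log (by linarith) ?_
      nlinarith [mul_pos hN0 hN0]
    rw [Real.log_pow] at this
    exact_mod_cast this
  have hpi := Real.pi_lt_d2
  have hpi0 := Real.pi_pos
  have hlog0 : 0 < Real.log N := by linarith
  have hlog1 : 0 ≤ Real.log (N + 1) := Real.log_nonneg (by linarith)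
  constructor
  · have h3 : 1 + Real.log (N + 1) ≤ 4 * Real.log N := by linarith
    have h4 : (32 * Real.pi) * (1 + Real.log (N + 1)) ≤ 101 * (4 * Real.log N) := mul_le_mul (by linarith) h3 (by linarith) (by norm_num)
    have h5 : N + 8 * Real.pi * N * (4 * (1 + Real.log (N + 1))) = N * (1 + (32 * Real.pi) * (1 + Real.log (N + 1))) := by ring
    rw [h5]
    calc (N:ℝ) * (1 + (32 * Real.pi) * (1 + Real.log (N + 1))) ≤ N * (2 * Real.log N + 101 * (4 * Real.log N)) :=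
          mul_le_mul_of_nonneg_left (by linarith) hN0.le
      _ ≤ 600 * (N * Real.log N) := by
        have : 0 < N * Real.log N := by positivity
        nlinarith
  · unfold Lg
    calc 9 * (N:ℝ) * (1 + Real.log (2 * N + 1)) ≤ 9 * N * (5 * Real.log N) := mul_le_mul_of_nonneg_left (by linarith) (by positivity)
      _ ≤ 49 * (N * Real.log N) := by
        have : 0 < N * Real.log N := by positivity
        nlinarith

/-- the measure of the exceptional set of one set -/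
theorem one_set {N : ℕ} (hN : 2 ≤ N) {S : Finset ℝ} (hS : ∀ t ∈ S, ∀ u ∈ S, t ≠ u → 1 ≤ |t - u|) {K : ℝ} (hK : 0 < K) :
    volume {x : ℝ | x ∈ Set.Icc (1:ℝ) 2 ∧ ¬ Holds N S x (600 * (N * Real.log N + K * S.card * Real.sqrt (N * Real.log N)))} ≤
      ENNReal.ofReal (1 / K ^ 2) := by
  have hN2 : (2:ℝ) ≤ N := by exact_mod_cast hN
  have hlog0 : 0 < Real.log N := Real.log_pos (by linarith)
  have hY : 0 < N * Real.log N := by positivity
  rcases S.eq_empty_or_nonempty with he | hne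
  · have h2 : {x : ℝ | x ∈ Set.Icc (1:ℝ) 2 ∧ ¬ Holds N S x (600 * (N * Real.log N + K * S.card * Real.sqrt (N * Real.log N)))} ⊆ ∅ := by
      intro x hx
      refine absurd ?_ hx.2
      rw [he]
      exact holds_empty _ _ (by positivity)
    exact (measure_mono h2).trans (by simp)
  have hc : 0 < (S.card : ℝ) := by exact_mod_cast Finset.card_pos.2 hne
  have hLg : 0 < Lg N := by
    unfold Lg
    have : 0 ≤ Real.log (2 * N + 1) := Real.log_nonneg (by linarith)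
    positivity
  have h1 := markov N S (V := K ^ 2 * ((S.card : ℝ) ^ 2 * Lg N)) (by positivity)
  have h2 : {x : ℝ | x ∈ Set.Icc (1:ℝ) 2 ∧ ¬ Holds N S x (600 * (N * Real.log N + K * S.card * Real.sqrt (N * Real.log N)))} ⊆
      {x : ℝ | x ∈ Set.Icc (1:ℝ) 2 ∧ K ^ 2 * ((S.card : ℝ) ^ 2 * Lg N) ≤ HS N S x} := by
    intro x hx
    refine ⟨hx.1, ?_⟩
    by_contra h
    rw [not_le] at h
    refine hx.2 (holds_mono (holds_of N S hS hx.1.1 hx.1.2) ?_)
    obtain ⟨c1, c2⟩ := consts hN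
    have h3 : Real.sqrt (HS N S x) ≤ 7 * (K * S.card * Real.sqrt (N * Real.log N)) := by
      have h4 : HS N S x ≤ (7 * (K * S.card * Real.sqrt (N * Real.log N))) ^ 2 := by
        refine h.le.trans ?_
        have e1 : (7 * (K * S.card * Real.sqrt (N * Real.log N))) ^ 2 = K ^ 2 * ((S.card : ℝ) ^ 2 * (49 * (N * Real.log N))) := by
          rw [mul_pow, mul_pow, Real.sq_sqrt hY.le]
          ring
        rw [e1]
        gcongr
      calc Real.sqrt (HS N S x) ≤ Real.sqrt ((7 * (K * S.card * Real.sqrt (N * Real.log N))) ^ 2) := Real.sqrt_le_sqrt h4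
        _ = _ := Real.sqrt_sq (by positivity)
    have h5 : 0 ≤ K * S.card * Real.sqrt (N * Real.log N) := by positivity
    rw [mul_add]
    linarith
  refine (measure_mono h2).trans (h1.trans (le_of_eq ?_))
  congr 1
  field_simp

end Pool.Agent.Run7.h290.DS
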